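import Pool.Agent.TBirG.Dil

/-!
# Evaluation of `psi(z) f(z)` through a smaller circle

For `r < |zeta| < 1`: the value at `zeta` of the sum of the nonnegative part `T psi f` and of the
negative part, the latter computed on the circle of radius `r`.
-/

set_option autoImplicit false

open MeasureTheory Complex Set Filter Topology Metric AddCircle
open scoped ComplexConjugate InnerProductSpace ENNReal

namespace Pool.Agent.TBirG

open Pool.Agent.TBir

/-- `(zeta - r S)⁻¹` -/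
noncomputable def Rs (r : ℝ) (z : ℂ) : Hardy →L[ℂ] Hardy :=
  Ring.inverse (z • (1 : Hardy →L[ℂ] Hardy) - (r : ℂ) • S)

theorem isUnit_Rs {r : ℝ} (hr0 : 0 ≤ r) {z : ℂ} (hz : r < ‖z‖) :
    IsUnit (z • (1 : Hardy →L[ℂ] Hardy) - (r : ℂ) • S) := by
  have hz0 : z ≠ 0 := by
    rintro rfl
    rw [norm_zero] at hz
    linarith
  have h1 : ‖(z⁻¹ * r : ℂ) • S‖ < 1 := by
    rw [norm_smul, norm_mul, norm_inv, Complex.norm_real, Real.norm_eq_abs, abs_of_nonneg hr0]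
    have h0 : 0 < ‖z‖ := norm_pos_iff.2 hz0
    calc ‖z‖⁻¹ * r * ‖S‖ ≤ ‖z‖⁻¹ * r * 1 :=
          mul_le_mul_of_nonneg_left norm_S_le (by positivity)
      _ < 1 := by
        rw [mul_one, inv_mul_lt_iff₀ h0, mul_one]
        exact hz
  have h2 : IsUnit (1 - (z⁻¹ * r : ℂ) • S) := isUnit_one_sub_of_norm_lt_one h1
  have h3 : IsUnit (z • (1 : Hardy →L[ℂ] Hardy)) := by
    have h4 : IsUnit (algebraMap ℂ (Hardy →L[ℂ] Hardy) z) := (IsUnit.mk0 _ hz0).map _
    rwa [Algebra.algebraMap_eq_smul_one] at h4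
  have h5 := h3.mul h2
  have e : (z • (1 : Hardy →L[ℂ] Hardy)) * (1 - (z⁻¹ * r : ℂ) • S) =
      z • (1 : Hardy →L[ℂ] Hardy) - (r : ℂ) • S := by
    rw [smul_mul_assoc, one_mul, smul_sub, smul_smul, ← mul_assoc, mul_inv_cancel₀ hz0, one_mul]
  rwa [e] at h5

theorem Rs_mul {r : ℝ} (hr0 : 0 ≤ r) {z : ℂ} (hz : r < ‖z‖) :
    Rs r z * (z • (1 : Hardy →L[ℂ] Hardy) - (r : ℂ) • S) = 1 :=
  Ring.inverse_mul_cancel _ (isUnit_Rs hr0 hz)

theorem mul_Rs {r : ℝ} (hr0 : 0 ≤ r) {z : ℂ} (hz : r < ‖z‖) :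
    (z • (1 : Hardy →L[ℂ] Hardy) - (r : ℂ) • S) * Rs r z = 1 :=
  Ring.mul_inverse_cancel _ (isUnit_Rs hr0 hz)

theorem Rs_diff {r : ℝ} (hr0 : 0 ≤ r) : DifferentiableOn ℂ (Rs r) {z | r < ‖z‖} := by
  intro z hz
  have h1 : DifferentiableAt ℂ (Ring.inverse : (Hardy →L[ℂ] Hardy) → (Hardy →L[ℂ] Hardy))
      (z • (1 : Hardy →L[ℂ] Hardy) - (r : ℂ) • S) :=
    differentiableAt_inverse (isUnit_Rs hr0 hz)
  have h2 : DifferentiableAt ℂ (fun z : ℂ => z • (1 : Hardy →L[ℂ] Hardy) - (r : ℂ) • S) z :=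
    (differentiableAt_id.smul_const _).sub_const _
  exact (h1.comp z h2).differentiableWithinAt

theorem co_T_mono (Ps : CT) (k m : ℕ) :
    co (T Ps (mono k)) m = fourierCoeff Ps ((m : ℤ) - k) := by
  have h := hasSum_co_T Ps (mono k) m
  have h2 : HasSum (fun n : ℕ => fourierCoeff Ps ((m : ℤ) - n) * co (mono k) n)
      (fourierCoeff Ps ((m : ℤ) - k) * co (mono k) k) := by
    refine hasSum_single k fun n hn => ?_
    rw [co_mono, if_neg hn, mul_zero]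
  rw [h.unique h2, co_mono, if_pos rfl, mul_one]

theorem S_mono (n : ℕ) : S (mono n) = mono (n + 1) := by
  refine ext_co fun m => ?_
  cases m with
  | zero => rw [co_S_zero, co_mono, if_neg (by omega)]
  | succ m =>
    rw [co_S_succ, co_mono, co_mono]
    by_cases h : m = n
    · rw [if_pos h, if_pos (by omega)]
    · rw [if_neg h, if_neg (by omega)]

theorem hasSum_Rs {r : ℝ} (hr0 : 0 ≤ r) {z : ℂ} (hz : r < ‖z‖) :
    HasSum (fun n : ℕ => ((r : ℂ) ^ n * z⁻¹ ^ (n + 1)) • mono n) (Rs r z (mono 0)) := by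
  have hz0' : 0 < ‖z‖ := lt_of_le_of_lt hr0 hz
  have hz0 : z ≠ 0 := norm_pos_iff.1 hz0'
  have hs : Summable (fun n : ℕ => ((r : ℂ) ^ n * z⁻¹ ^ (n + 1)) • mono n) := by
    have hg : Summable fun n : ℕ => ‖z‖⁻¹ * (r * ‖z‖⁻¹) ^ n := by
      refine (summable_geometric_of_lt_one (by positivity) ?_).mul_left _
      rw [mul_inv_lt_iff₀ hz0', one_mul]
      exact hz
    refine Summable.of_norm_bounded hg fun n => ?_
    rw [norm_smul, norm_mono, mul_one, norm_mul, norm_pow, norm_pow, norm_inv, Complex.norm_real,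
      Real.norm_eq_abs, abs_of_nonneg hr0, mul_pow, pow_succ]
    exact le_of_eq (by ring)
  obtain ⟨w, hw⟩ := hs
  have hco : ∀ n, co w n = (r : ℂ) ^ n * z⁻¹ ^ (n + 1) := by
    intro n
    have h1 := hw.mapL (coL n)
    have h2 : HasSum (fun m : ℕ => coL n (((r : ℂ) ^ m * z⁻¹ ^ (m + 1)) • mono m))
        (coL n (((r : ℂ) ^ n * z⁻¹ ^ (n + 1)) • mono n)) := by
      refine hasSum_single n fun m hm => ?_
      rw [map_smul, coL_apply, co_mono, if_neg (Ne.symm hm), smul_zero]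
    have h3 := h1.unique h2
    rw [coL_apply, map_smul, coL_apply, co_mono, if_pos rfl, smul_eq_mul, mul_one] at h3
    exact h3
  have h4 : (z • (1 : Hardy →L[ℂ] Hardy) - (r : ℂ) • S) w = mono 0 := by
    have e1 : (z • (1 : Hardy →L[ℂ] Hardy) - (r : ℂ) • S) w = z • w - (r : ℂ) • S w := rfl
    refine ext_co fun n => ?_
    rw [e1, ← coL_apply, map_sub, map_smul, map_smul, coL_apply, coL_apply, co_mono, hco]
    cases n with
    | zero =>
      rw [co_S_zero]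
      simp [hz0]
    | succ n =>
      rw [co_S_succ, hco, if_neg (by omega), smul_eq_mul, smul_eq_mul, sub_eq_zero,
        pow_succ (r : ℂ) n, pow_succ z⁻¹ (n + 1)]
      field_simp
  have h5 : Rs r z (mono 0) = w := by
    have := congrArg (fun B : Hardy →L[ℂ] Hardy => B w) (Rs_mul hr0 hz)
    change Rs r z ((z • (1 : Hardy →L[ℂ] Hardy) - (r : ℂ) • S) w) = w at this
    rw [h4] at this
    exact this
  rw [h5]
  exact hw

theorem exists_bdd {d d' : ℝ} (hdd : d' < d) {h : ℂ → ℂ}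
    (hh : DifferentiableOn ℂ h (ann d)) : ∃ B : ℝ, ∀ w ∈ ann d', ‖h w‖ ≤ B := by
  have hcl : IsClosed {w : ℂ | 1 - d' ≤ ‖w‖ ∧ ‖w‖ ≤ 1 + d'} :=
    (isClosed_le continuous_const continuous_norm).inter
      (isClosed_le continuous_norm continuous_const)
  have hcp : IsCompact {w : ℂ | 1 - d' ≤ ‖w‖ ∧ ‖w‖ ≤ 1 + d'} := by
    refine Metric.isCompact_of_isClosed_isBounded hcl ?_
    refine (Metric.isBounded_closedBall (x := (0 : ℂ)) (r := 1 + d')).subset fun w hw => ?_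
    rw [mem_closedBall, dist_zero_right]
    exact hw.2
  have hsub : {w : ℂ | 1 - d' ≤ ‖w‖ ∧ ‖w‖ ≤ 1 + d'} ⊆ ann d := by
    rintro w ⟨h1, h2⟩
    exact ⟨by linarith, by linarith⟩
  obtain ⟨B, hB⟩ := hcp.exists_bound_of_continuousOn (hh.continuousOn.mono hsub)
  exact ⟨B, fun w hw => hB w ⟨hw.1.le, hw.2.le⟩⟩

/-- The Laurent expansion at the points of modulus at most `1`. -/
theorem laurent_at {d : ℝ} (hd : 0 < d) (hd1 : d < 1) {h : ℂ → ℂ}
    (hh : DifferentiableOn ℂ h (ann d)) {z : ℂ} (hz : 1 - d < ‖z‖) (hz1 : ‖z‖ ≤ 1) :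
    HasSum (fun k : ℤ => fourierCoeff (sy h 1) k * z ^ k) (h z) := by
  have hr0 : 0 < ‖z‖ := by linarith
  have hz0 : z ≠ 0 := norm_pos_iff.1 hr0
  obtain ⟨y, hy⟩ := exists_e (z := z / ‖z‖) (by
    rw [norm_div, Complex.norm_real, norm_norm, div_self hr0.ne'])
  have hzy : (‖z‖ : ℂ) * e y = z := by
    rw [hy]
    have : (‖z‖ : ℂ) ≠ 0 := by exact_mod_cast hr0.ne'
    field_simp
  obtain ⟨d', hd'⟩ : ∃ d' : ℝ, d' = (‖z‖ - (1 - d)) / 2 := ⟨_, rfl⟩
  have hd'0 : 0 < d' := by rw [hd']; linarith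
  have hsub : ∀ w ∈ ann d', (‖z‖ : ℂ) * w ∈ ann d := by
    rintro w ⟨h1, h2⟩
    have e1 : ‖(‖z‖ : ℂ) * w‖ = ‖z‖ * ‖w‖ := by
      rw [norm_mul, Complex.norm_real, norm_norm]
    refine ⟨?_, ?_⟩
    · rw [e1]
      have : ‖z‖ * (1 - d') < ‖z‖ * ‖w‖ := by gcongr
      have h3 : ‖z‖ * d' ≤ d' := by nlinarith
      rw [hd'] at this h3
      nlinarith
    · rw [e1]
      have : ‖z‖ * ‖w‖ < ‖z‖ * (1 + d') := by gcongr
      have h3 : ‖z‖ * d' ≤ d' := by nlinarith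
      rw [hd'] at this h3
      nlinarith
  have hh' : DifferentiableOn ℂ (fun w => h (‖z‖ * w)) (ann d') :=
    hh.comp ((differentiableOn_const _).mul differentiableOn_id) hsub
  obtain ⟨B, hB⟩ := exists_bdd (half_lt_self hd'0) hh'
  have hsub2 : ann (d' / 2) ⊆ ann d' := by
    rintro w ⟨h1, h2⟩
    exact ⟨by linarith, by linarith⟩
  have h1 := laurent_sum (half_pos hd'0) (by linarith) (hh'.mono hsub2) hB y
  rw [hzy] at h1
  refine hasSum_of_eq h1 fun k => ?_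
  rw [coeff_scale hd hd1 hz hz1 hh k, fourier_eq_e]
  have h2 : (sy h 1 : UnitAddCircle → ℂ) = fun x => h (e x) :=
    funext fun x => by
      rw [sy_apply hd (by linarith) one_pos le_rfl hh x]
      simp
  have h3 : z ^ k = (‖z‖ : ℂ) ^ k * e y ^ k := by rw [← mul_zpow, hzy]
  rw [h2, h3]
  ring

/-- The value at `z`, `r < |z| < 1`, through the circle of radius `r`. -/
theorem star_eq {d r : ℝ} (hd : 0 < d) (hd1 : d < 1) (hr : 1 - d < r) {h : ℂ → ℂ}
    (hh : DifferentiableOn ℂ h (ann d)) {z : ℂ} (hz : r < ‖z‖) (hz1 : ‖z‖ < 1) :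
    ev z (T (sy h 1) (mono 0)) + coL 0 (T (sy h r) ((r : ℂ) • S (Rs r z (mono 0)))) = h z := by
  have hr0 : 0 < r := by linarith
  have hrc : (r : ℂ) ≠ 0 := by exact_mod_cast hr0.ne'
  have hz0 : z ≠ 0 := norm_pos_iff.1 (hr0.trans hz)
  have h1 : HasSum (fun n : ℕ => fourierCoeff (sy h 1) (n : ℤ) * z ^ (n : ℤ))
      (ev z (T (sy h 1) (mono 0))) := by
    refine hasSum_of_eq (hasSum_ev hz1 (T (sy h 1) (mono 0))) fun n => ?_
    rw [co_T_mono, zpow_natCast]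
    simp
  have h2 : HasSum (fun n : ℕ => fourierCoeff (sy h 1) (-((n : ℤ) + 1)) * z ^ (-((n : ℤ) + 1)))
      (coL 0 (T (sy h r) ((r : ℂ) • S (Rs r z (mono 0))))) := by
    have h3 := (((hasSum_Rs hr0.le hz).mapL S).const_smul (r : ℂ)).mapL (T (sy h r))
    have h4 := h3.mapL (coL 0)
    refine hasSum_of_eq h4 fun n => ?_
    rw [map_smul, map_smul, map_smul, map_smul, map_smul, S_mono, coL_apply, co_T_mono,
      coeff_sy hd hd1 hr (by linarith) hh, smul_eq_mul, smul_eq_mul]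
    have e1 : (((0 : ℕ) : ℤ) - ((n + 1 : ℕ) : ℤ)) = -((n : ℤ) + 1) := by push_cast; ring
    rw [e1, zpow_neg, zpow_neg]
    have e2 : z ^ ((n : ℤ) + 1) = z ^ (n + 1) := by exact_mod_cast zpow_natCast z (n + 1)
    have e3 : (r : ℂ) ^ ((n : ℤ) + 1) = (r : ℂ) ^ (n + 1) := by
      exact_mod_cast zpow_natCast (r : ℂ) (n + 1)
    rw [e2, e3, pow_succ (r : ℂ) n, inv_pow]
    have h5 : (r : ℂ) ^ n ≠ 0 := pow_ne_zero _ hrc
    have h6 : z ^ (n + 1) ≠ 0 := pow_ne_zero _ hz0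
    field_simp
  have h3 := HasSum.of_nat_of_neg_add_one (f := fun k : ℤ => fourierCoeff (sy h 1) k * z ^ k) h1 h2
  exact h3.unique (laurent_at hd hd1 hh (hr.trans hz) hz1.le)

end Pool.Agent.TBirG
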