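import Pool.Agent.TBirG.Fr

/-!
# The scalar is the same at all simple points
-/

set_option autoImplicit false

open MeasureTheory Complex Set Filter Topology Metric AddCircle
open scoped ComplexConjugate InnerProductSpace ENNReal

namespace Pool.Agent.TBirG

open Pool.Agent.TBir

/-- `phi` is not constant near any point of the circle. -/
def NC (phi : ℂ → ℂ) : Prop := ∀ z ∈ sphere (0 : ℂ) 1, ∀ l : ℂ, ∀ᶠ w in 𝓝[≠] z, phi w ≠ l

theorem evt_ne {phi : ℂ → ℂ} (h : NC phi) (l : ℂ) :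
    ∀ᶠ r : ℝ in 𝓝[≠] 1, ∀ z ∈ sphere (0 : ℂ) 1, phi (r * z) ≠ l := by
  have hmul : ∀ z : ℂ, Tendsto (fun p : ℝ × ℂ => (p.1 : ℂ) * p.2) (𝓝 (1, z)) (𝓝 z) := by
    intro z
    have hc : Continuous fun p : ℝ × ℂ => (p.1 : ℂ) * p.2 := by fun_prop
    have := hc.tendsto (1, z)
    simpa using this
  have h1 : ∀ᶠ r : ℝ in 𝓝 1, ∀ z ∈ sphere (0 : ℂ) 1, ‖z‖ = 1 → r ≠ 1 → phi (r * z) ≠ l := by
    refine (isCompact_sphere (0 : ℂ) 1).eventually_forall_of_forall_eventually fun z hz => ?_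
    have h2 := eventually_nhdsWithin_iff.1 (h z hz l)
    have h3 := (hmul z).eventually h2
    have h4 : ∀ᶠ p : ℝ × ℂ in 𝓝 (1, z), 0 < p.1 :=
      continuous_fst.continuousAt.eventually_const_lt (by norm_num)
    filter_upwards [h3, h4] with p hp h5 h6 h7
    refine hp ?_
    intro h8
    rw [mem_sphere_zero_iff_norm] at hz
    have h9 := congrArg norm (show (p.1 : ℂ) * p.2 = z from h8)
    rw [norm_mul, h6, hz, mul_one, Complex.norm_real, Real.norm_eq_abs, abs_of_pos h5] at h9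
    exact h7 h9
  rw [eventually_nhdsWithin_iff]
  filter_upwards [h1] with r hr hr1 z hz
  exact hr z hz (by simpa using hz) hr1

/-- The left inverses on a smaller circle. -/
theorem exists_Lr {d : ℝ} (hd : 0 < d) {phi : ℂ → ℂ}
    (hphi : DifferentiableOn ℂ phi (ann d)) (hNC : NC phi) {l0 : ℂ} (hN : Inn phi l0) {r0 : ℝ}
    (hr0 : r0 < 1) : ∃ r : ℝ, r0 < r ∧ 1 - d < r ∧ 0 < r ∧ r < 1 ∧
      ∃ (ρ : ℝ) (L : ℂ → Hardy →L[ℂ] Hardy), 0 < ρ ∧ DifferentiableOn ℂ L (ball l0 ρ) ∧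
        ∀ l ∈ ball l0 ρ, L l * (T (sy phi r) - l • (1 : Hardy →L[ℂ] Hardy)) = 1 := by
  have h1 : ∀ᶠ r : ℝ in 𝓝[<] 1, r < 1 := self_mem_nhdsWithin
  have h2 : ∀ᶠ r : ℝ in 𝓝[<] 1, 1 - d < r := nhdsWithin_le_nhds (Ioi_mem_nhds (by linarith))
  have h3 : ∀ᶠ r : ℝ in 𝓝[<] 1, r0 < r := nhdsWithin_le_nhds (Ioi_mem_nhds hr0)
  have h3' : ∀ᶠ r : ℝ in 𝓝[<] 1, 0 < r := nhdsWithin_le_nhds (Ioi_mem_nhds one_pos)
  have h4 : ∀ᶠ r : ℝ in 𝓝[<] 1, ∀ z ∈ sphere (0 : ℂ) 1, phi (r * z) ≠ l0 :=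
    (evt_ne hNC l0).filter_mono (nhdsWithin_mono _ fun x (hx : x < 1) => hx.ne)
  obtain ⟨r, hr1, hr, hr2, hr3, hr4, hr5⟩ :=
    (h1.and (h2.and (h3.and (h3'.and (h4.and hN))))).exists
  refine ⟨r, hr2, hr, hr3, hr1, ?_⟩
  have han : AnalyticOnNhd ℂ (fun w => phi (r * w) - l0) (sphere 0 1) := by
    intro z hz
    have hz' : ‖z‖ = 1 := by simpa using hz
    have h5 : (r : ℂ) * z ∈ ann d := by
      have : ‖(r : ℂ) * z‖ = r := by
        rw [norm_mul, hz', mul_one, Complex.norm_real, Real.norm_eq_abs, abs_of_pos hr3]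
      exact ⟨by rw [this]; exact hr, by rw [this]; linarith⟩
    exact (AnalyticAt.fun_comp (hphi.analyticOnNhd (isOpen_ann d) _ h5)
      (analyticAt_const.mul analyticAt_id)).sub analyticAt_const
  have hne : ∀ z ∈ sphere (0 : ℂ) 1, phi (r * z) - l0 ≠ 0 := fun z hz h =>
    hr4 z hz (sub_eq_zero.1 h)
  obtain ⟨n, hn⟩ := wind_int han hne
  have hn0 : 0 ≤ n := by
    rw [hn] at hr5
    simpa using hr5
  obtain ⟨C, eta, _, heta, hW⟩ := exists_hasWH han hne (Psi := sy phi r - algebraMap ℂ CT l0)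
    (fun x => by
      rw [ContinuousMap.sub_apply, sy_apply hd hr hr3 hr1.le hphi]
      simp) hn
  obtain ⟨L0, hL0⟩ := hW.exists_left heta hn0
  rw [T_sub_smul] at hL0
  obtain ⟨s, L, hs, _, h1, h2, _⟩ := abs_left (A := fun l : ℂ => T (sy phi r) -
    l • (1 : Hardy →L[ℂ] Hardy)) one_pos (by fun_prop) hL0 (P := 1) (fun eps heps =>
      ⟨l0, mem_ball_self heps, Eventually.of_forall fun l => ⟨1, by rw [one_mul, mul_one]⟩⟩)
  exact ⟨s, L, hs, h1, h2⟩

theorem exists_m {d : ℝ} (hd : 0 < d) (hd1 : d < 1) {phi : ℂ → ℂ}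
    (hphi : DifferentiableOn ℂ phi (ann d)) (hNC : NC phi) {z0 : ℂ} (hz0 : ‖z0‖ = 1)
    (hN : Inn phi (phi z0)) (P : Hardy →L[ℂ] Hardy) :
    ∃ s > 0, ball z0 s ⊆ ann d ∧ ∃ m : ℂ → ℂ, DifferentiableOn ℂ m (ball z0 s ∩ ball 0 1) ∧
      ∀ z1 c, SF d phi P z1 c →
        ∃ t > 0, ∀ z ∈ ball z1 t, z ∈ ball z0 s ∩ ball 0 1 → m z = c * deriv phi z := by
  obtain ⟨r, _, hr, hr0, hr1, ρ, L, hρ, hLd, hL⟩ := exists_Lr hd hphi hNC hN zero_lt_one
  have hza2 := sphere_mem_ann (half_pos hd) hz0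
  have hza := sphere_mem_ann hd hz0
  have hcont : ContinuousAt phi z0 := (hphi.continuousOn).continuousAt ((isOpen_ann d).mem_nhds hza)
  have e1 : ∀ᶠ z in 𝓝 z0, z ∈ ann (d / 2) := (isOpen_ann _).mem_nhds hza2
  have e2 : ∀ᶠ z in 𝓝 z0, phi z ∈ ball (phi z0) ρ := hcont.eventually (ball_mem_nhds _ hρ)
  have e3 : ∀ᶠ z in 𝓝 z0, r < ‖z‖ :=
    continuous_norm.continuousAt.eventually_const_lt (show r < ‖z0‖ by rw [hz0]; exact hr1)
  obtain ⟨s, hs, hs'⟩ := Metric.eventually_nhds_iff_ball.1 (e1.and (e2.and e3))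
  have hsub2 : ball z0 s ⊆ ann (d / 2) := fun z hz => (hs' z hz).1
  have hsub : ball z0 s ⊆ ann d := hsub2.trans (ann_half hd)
  refine ⟨s, hs, hsub, fun z => kf (T (sy phi r)) (L (phi z)) r (phi z) z
    (P (T (qs phi z) (mono 0))), ?_, ?_⟩
  · have d0 : DifferentiableOn ℂ phi (ball z0 s) := hphi.mono hsub
    have d1 : DifferentiableOn ℂ (fun z => P (T (qs phi z) (mono 0))) (ball z0 s) :=
      P.differentiable.comp_differentiableOn
        ((T_qs_diff hd hd1 hphi hsub2).clm_apply (differentiableOn_const _))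
    have d2 : DifferentiableOn ℂ (fun z => Dl r (P (T (qs phi z) (mono 0)))) (ball z0 s) :=
      (Dl r).differentiable.comp_differentiableOn d1
    have d3 : DifferentiableOn ℂ (fun z => L (phi z)) (ball z0 s) :=
      hLd.comp d0 fun z hz => (hs' z hz).2.1
    have d4 := d3.clm_apply d2
    have d5 : DifferentiableOn ℂ (Rs r) (ball z0 s) :=
      (Rs_diff hr0.le).mono fun z hz => (hs' z hz).2.2
    have d6 := d5.clm_apply d4
    have d7 := (S.differentiable.comp_differentiableOn d6).const_smul (r : ℂ)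
    have d8 : DifferentiableOn ℂ (fun z => T (sy phi r) - phi z • (1 : Hardy →L[ℂ] Hardy))
        (ball z0 s) := (d0.smul_const _).const_sub _
    have d9 := (coL 0).differentiable.comp_differentiableOn (d8.clm_apply d7)
    have d10 : DifferentiableOn ℂ (fun z => ev z (P (T (qs phi z) (mono 0))))
        (ball z0 s ∩ ball 0 1) :=
      (ev_diffOn.mono inter_subset_right).clm_apply (d1.mono inter_subset_left)
    exact d10.add (d9.mono inter_subset_left)
  · rintro z1 c ⟨t, L1, ht, _, _, _, g2, g3⟩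
    refine ⟨t, ht, fun z hz hz' => ?_⟩
    have hz1 : ‖z‖ < 1 := by simpa using hz'.2
    have hrz : r < ‖z‖ := (hs' z hz'.1).2.2
    have hLz := hL (phi z) (hs' z hz'.1).2.1
    have hTL : T (qs phi z) (L1 z (P (T (qs phi z) (mono 0)))) = P (T (qs phi z) (mono 0)) :=
      congrArg (fun B : Hardy →L[ℂ] Hardy => B (mono 0)) (g2 z hz)
    have h3 : ev z (mono 0) = 1 := by rw [ev_mono hz1]; simp
    have h4 := g3 z hz hz1 (mono 0)
    rw [h3, mul_one] at h4
    have h5 : ev z (L1 z (P (T (qs phi z) (mono 0))) - c • mono 0) = 0 := by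
      rw [map_sub, map_smul, h3, smul_eq_mul, mul_one, h4, sub_self]
    obtain ⟨k, hk⟩ := div_of_ev hz1 h5
    have h6 : L1 z (P (T (qs phi z) (mono 0))) =
        c • mono 0 + (S - z • (1 : Hardy →L[ℂ] Hardy)) k := by
      rw [hk]
      abel
    have h7 : P (T (qs phi z) (mono 0)) = c • T (qs phi z) (mono 0) +
        (T (sy phi 1) - phi z • (1 : Hardy →L[ℂ] Hardy)) k := by
      have h8 : (T (sy phi 1) - phi z • (1 : Hardy →L[ℂ] Hardy)) k =
          T (qs phi z) ((S - z • (1 : Hardy →L[ℂ] Hardy)) k) :=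
        congrArg (fun B : Hardy →L[ℂ] Hardy => B k) (fac_one hd hd1 hphi (hsub hz'.1))
      rw [h8, ← hTL, h6, map_add, map_smul]
    change kf (T (sy phi r)) (L (phi z)) r (phi z) z (P (T (qs phi z) (mono 0))) = _
    rw [h7, kf_add, kf_smul, kf_range hd hd1 hr hr1 hphi hrz hz1 hLz,
      kf_qs hd hd1 hr hr1 hphi hrz hz1 hLz, add_zero]

/-- Near each point of the circle the scalar is the same at all simple points. -/
theorem loc_const {d : ℝ} (hd : 0 < d) (hd1 : d < 1) {phi : ℂ → ℂ}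
    (hphi : DifferentiableOn ℂ phi (ann d)) (hNC : NC phi) {z0 : ℂ} (hz0 : ‖z0‖ = 1)
    (hN : Inn phi (phi z0)) (P : Hardy →L[ℂ] Hardy) :
    ∃ s > 0, ∀ z1 ∈ ball z0 s, ∀ z2 ∈ ball z0 s, Simple phi z1 → Simple phi z2 →
      ∀ c1 c2, SF d phi P z1 c1 → SF d phi P z2 c2 → c1 = c2 := by
  obtain ⟨s, hs, hsub, m, hm, hm'⟩ := exists_m hd hd1 hphi hNC hz0 hN P
  refine ⟨s, hs, fun z1 hz1 z2 hz2 s1 s2 c1 c2 f1 f2 => ?_⟩
  obtain ⟨U, hU⟩ : ∃ U : Set ℂ, U = ball z0 s ∩ ball 0 1 := ⟨_, rfl⟩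
  have hUo : IsOpen U := by rw [hU]; exact isOpen_ball.inter isOpen_ball
  have hpre : IsPreconnected U := by
    rw [hU]
    exact ((convex_ball z0 s).inter (convex_ball 0 1)).isPreconnected
  have hdphi : DifferentiableOn ℂ (deriv phi) U := by
    rw [hU]
    exact (hphi.deriv (isOpen_ann d)).mono (inter_subset_left.trans hsub)
  have hmU : DifferentiableOn ℂ m U := by rw [hU]; exact hm
  have key : ∀ z c, z ∈ ball z0 s → Simple phi z → SF d phi P z c →
      ∀ w ∈ U, m w = c * deriv phi w := by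
    intro z c hz hsim hf w hw
    obtain ⟨t, ht, h1⟩ := hm' z c hf
    obtain ⟨ε, hε, h2⟩ := Metric.isOpen_iff.1 (isOpen_ball (x := z0) (ε := s)) z hz
    obtain ⟨z', h3, h4⟩ := tendsto_in hsim.1 (lt_min ht hε)
    have h5 : z' ∈ ball z t := ball_subset_ball (min_le_left _ _) h3
    have h6 : z' ∈ U := by
      rw [hU]
      exact ⟨h2 (ball_subset_ball (min_le_right _ _) h3), by simpa using h4⟩
    have h7 : (fun w => m w - c * deriv phi w) =ᶠ[𝓝 z'] 0 := by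
      filter_upwards [isOpen_ball.mem_nhds h5, hUo.mem_nhds h6] with v hv hv'
      rw [hU] at hv'
      change m v - c * deriv phi v = 0
      rw [h1 v hv hv', sub_self]
    have h8 : DifferentiableOn ℂ (fun w => m w - c * deriv phi w) U :=
      hmU.sub (hdphi.const_mul c)
    have h9 := (h8.analyticOnNhd hUo).eqOn_zero_of_preconnected_of_eventuallyEq_zero hpre h6 h7 hw
    exact sub_eq_zero.1 h9
  -- a point where the derivative does not vanish
  have hd0 : ∀ᶠ w in 𝓝 z1, deriv phi w ≠ 0 := by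
    have hza := sphere_mem_ann hd s1.1
    have hc : ContinuousAt (deriv phi) z1 :=
      ((hphi.deriv (isOpen_ann d)).continuousOn).continuousAt ((isOpen_ann d).mem_nhds hza)
    exact hc.eventually_ne s1.2.1
  obtain ⟨t, ht, h1⟩ := Metric.eventually_nhds_iff_ball.1 hd0
  obtain ⟨ε, hε, h2⟩ := Metric.isOpen_iff.1 (isOpen_ball (x := z0) (ε := s)) z1 hz1
  obtain ⟨z', h3, h4⟩ := tendsto_in s1.1 (lt_min ht hε)
  have h5 : z' ∈ U := by
    rw [hU]
    exact ⟨h2 (ball_subset_ball (min_le_right _ _) h3), by simpa using h4⟩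
  have h6 := key z1 c1 hz1 s1 f1 z' h5
  have h7 := key z2 c2 hz2 s2 f2 z' h5
  exact mul_right_cancel₀ (h1 z' (ball_subset_ball (min_le_left _ _) h3)) (h6.symm.trans h7)

/-- The simple points are dense in the circle. -/
theorem exists_simple {phi : ℂ → ℂ} (hfin : {z : ℂ | ‖z‖ = 1 ∧ ¬ Simple phi z}.Finite) {z0 : ℂ}
    (hz0 : ‖z0‖ = 1) {eps : ℝ} (heps : 0 < eps) : ∃ z ∈ ball z0 eps, Simple phi z := by
  by_contra hcon
  push Not at hcon
  have h1 : sphere (0 : ℂ) 1 ∩ ball z0 eps ⊆ {z : ℂ | ‖z‖ = 1 ∧ ¬ Simple phi z} := fun z hz =>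
    ⟨by simpa using hz.1, hcon z hz.2⟩
  have h2 := hfin.subset h1
  have hc : Continuous fun t : ℝ => z0 * Complex.exp (t * I) := by fun_prop
  have h3 : ∀ᶠ t : ℝ in 𝓝 0, z0 * Complex.exp (t * I) ∈ ball z0 eps := by
    refine hc.continuousAt.eventually (isOpen_ball.mem_nhds ?_)
    simp [heps]
  obtain ⟨δ, hδ, h4⟩ := Metric.eventually_nhds_iff_ball.1 h3
  have h5 : (fun t : ℝ => z0 * Complex.exp (t * I)) '' (Ioo 0 (min δ 1)) ⊆
      sphere (0 : ℂ) 1 ∩ ball z0 eps := by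
    rintro _ ⟨t, ht, rfl⟩
    refine ⟨?_, h4 t ?_⟩
    · simp [hz0, Complex.norm_exp_ofReal_mul_I]
    · rw [mem_ball, dist_zero_right, Real.norm_eq_abs, abs_of_pos ht.1]
      exact ht.2.trans_le (min_le_left _ _)
  have h6 : InjOn (fun t : ℝ => z0 * Complex.exp (t * I)) (Ioo 0 (min δ 1)) := by
    intro a ha b hb hab
    have hz : z0 ≠ 0 := by
      rintro rfl
      simp at hz0
    have h7 := mul_left_cancel₀ hz hab
    rw [Complex.exp_eq_exp_iff_exists_int] at h7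
    obtain ⟨n, hn⟩ := h7
    have h8 : (a : ℂ) = b + n * (2 * Real.pi) := by
      have hI := Complex.I_ne_zero
      apply mul_right_cancel₀ hI
      rw [hn]
      ring
    have h9 : a = b + n * (2 * Real.pi) := by exact_mod_cast h8
    have ha1 : a < 1 := ha.2.trans_le (min_le_right _ _)
    have hb1 : b < 1 := hb.2.trans_le (min_le_right _ _)
    have ha0 : 0 < a := ha.1
    have hb0 : 0 < b := hb.1
    have hpi := Real.pi_gt_three
    have h10 : n = 0 := by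
      by_contra hn0
      rcases lt_or_gt_of_ne hn0 with h | h
      · have : (n : ℝ) ≤ -1 := by exact_mod_cast (show n ≤ -1 by omega)
        nlinarith
      · have : (1 : ℝ) ≤ n := by exact_mod_cast (show 1 ≤ n by omega)
        nlinarith
    rw [h9, h10]
    simp
  exact (((Set.Ioo_infinite (lt_min hδ one_pos)).image h6).mono h5) h2

/-- The scalar is the same at all simple points. -/
theorem exists_const {d : ℝ} (hd : 0 < d) (hd1 : d < 1) {phi : ℂ → ℂ}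
    (hphi : DifferentiableOn ℂ phi (ann d)) (hNC : NC phi)
    (hfin : {z : ℂ | ‖z‖ = 1 ∧ ¬ Simple phi z}.Finite) (hN : ∀ l, Inn phi l)
    {P : Hardy →L[ℂ] Hardy} (hP : P * T (sy phi 1) = T (sy phi 1) * P) (hP2 : P * P = P) :
    ∃ c : ℂ, (c = 0 ∨ c = 1) ∧ ∀ z, Simple phi z → SF d phi P z c := by
  choose! cc hcc hSF using fun z (hz : Simple phi z) => exists_SF hd hd1 hphi hz (hN _) hP hP2
  obtain ⟨V, hV⟩ : ∃ V : ℂ → Set ℂ, V = fun k => {z | ∃ ρ > 0, ∀ z1 ∈ ball z ρ, Simple phi z1 →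
      cc z1 = k} := ⟨_, rfl⟩
  have hVo : ∀ k, IsOpen (V k) := by
    intro k
    rw [Metric.isOpen_iff, hV]
    rintro z ⟨ρ, hρ, h⟩
    refine ⟨ρ / 2, half_pos hρ, fun w hw => ⟨ρ / 2, half_pos hρ, fun z1 hz1 => h z1 ?_⟩⟩
    rw [mem_ball] at hw hz1 ⊢
    linarith [dist_triangle z1 w z]
  have hcov : sphere (0 : ℂ) 1 ⊆ V 0 ∪ V 1 := by
    intro z hz
    have hz' : ‖z‖ = 1 := by simpa using hz
    obtain ⟨s, hs, h⟩ := loc_const hd hd1 hphi hNC hz' (hN _) P
    obtain ⟨z2, hz2, hsim⟩ := exists_simple hfin hz' hs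
    have h1 : ∀ z1 ∈ ball z s, Simple phi z1 → cc z1 = cc z2 := fun z1 hz1 hs1 =>
      h z1 hz1 z2 hz2 hs1 hsim _ _ (hSF z1 hs1) (hSF z2 hsim)
    rcases hcc z2 hsim with h2 | h2
    · left
      rw [hV]
      exact ⟨s, hs, fun z1 hz1 hs1 => (h1 z1 hz1 hs1).trans h2⟩
    · right
      rw [hV]
      exact ⟨s, hs, fun z1 hz1 hs1 => (h1 z1 hz1 hs1).trans h2⟩
  have hdisj : ∀ z ∈ sphere (0 : ℂ) 1, z ∈ V 0 → z ∈ V 1 → False := by
    intro z hz h0 h1
    rw [hV] at h0 h1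
    obtain ⟨ρ0, hρ0, h0⟩ := h0
    obtain ⟨ρ1, hρ1, h1⟩ := h1
    obtain ⟨z2, hz2, hsim⟩ := exists_simple hfin (show ‖z‖ = 1 by simpa using hz) (lt_min hρ0 hρ1)
    have e0 := h0 z2 (ball_subset_ball (min_le_left _ _) hz2) hsim
    have e1 := h1 z2 (ball_subset_ball (min_le_right _ _) hz2) hsim
    rw [e0] at e1
    exact zero_ne_one e1
  have hpre : IsPreconnected (sphere (0 : ℂ) 1) := by
    refine isPreconnected_sphere ?_ _ _
    rw [Complex.rank_real_complex]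
    norm_num
  have hone : ∀ k, sphere (0 : ℂ) 1 ⊆ V k → ∀ z, Simple phi z → cc z = k := by
    intro k hk z hz
    have h1 := hk (show z ∈ sphere (0 : ℂ) 1 by simpa using hz.1)
    rw [hV] at h1
    obtain ⟨ρ, hρ, h⟩ := h1
    exact h z (mem_ball_self hρ) hz
  by_cases h0 : (sphere (0 : ℂ) 1 ∩ V 0).Nonempty
  · have h1 : ¬ (sphere (0 : ℂ) 1 ∩ V 1).Nonempty := by
      intro h1
      obtain ⟨z, hz, hz'⟩ := hpre (V 0) (V 1) (hVo 0) (hVo 1) hcov h0 h1
      exact hdisj z hz hz'.1 hz'.2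
    have h2 : sphere (0 : ℂ) 1 ⊆ V 0 := fun z hz => (hcov hz).resolve_right
      fun h => h1 ⟨z, hz, h⟩
    refine ⟨0, Or.inl rfl, fun z hz => ?_⟩
    have := hSF z hz
    rwa [hone 0 h2 z hz] at this
  · have h2 : sphere (0 : ℂ) 1 ⊆ V 1 := fun z hz => (hcov hz).resolve_left
      fun h => h0 ⟨z, hz, h⟩
    refine ⟨1, Or.inr rfl, fun z hz => ?_⟩
    have := hSF z hz
    rwa [hone 1 h2 z hz] at this

end Pool.Agent.TBirG
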