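import Pool.Agent.TBir.Stmt

/-!
# Dilations of the Hardy space and of the symbols

`Dl r f (z) = f (r z)`, `sy h r` is the symbol `x ↦ h (r e(x))`, and
`Dl r * T (sy h 1) = T (sy h r) * Dl r` when `h` is analytic in an annulus containing the circle of
radius `r ≤ 1`.
-/

set_option autoImplicit false

open MeasureTheory Complex Set Filter Topology Metric AddCircle
open scoped ComplexConjugate InnerProductSpace ENNReal

namespace Pool.Agent.TBirG

open Pool.Agent.TBir

open Classical in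
/-- The symbol `x ↦ h (r e(x))` (and `0` if this is not continuous). -/
noncomputable def sy (h : ℂ → ℂ) (r : ℝ) : CT :=
  if hc : Continuous fun x : UnitAddCircle => h (r * e x) then ⟨_, hc⟩ else 0

theorem mem_ann_mul {d r : ℝ} (hd : 0 < d) (hr : 1 - d < r) (hr0 : 0 < r) (hr1 : r ≤ 1)
    (x : UnitAddCircle) : (r : ℂ) * e x ∈ ann d := by
  have h1 : ‖(r : ℂ) * e x‖ = r := by
    rw [norm_mul, norm_e, mul_one, Complex.norm_real, Real.norm_eq_abs, abs_of_pos hr0]
  refine ⟨by rw [h1]; exact hr, by rw [h1]; linarith⟩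

theorem sy_apply {d r : ℝ} (hd : 0 < d) (hr : 1 - d < r) (hr0 : 0 < r) (hr1 : r ≤ 1) {h : ℂ → ℂ}
    (hh : DifferentiableOn ℂ h (ann d)) (x : UnitAddCircle) : sy h r x = h (r * e x) := by
  have hc : Continuous fun x : UnitAddCircle => h (r * e x) :=
    hh.continuousOn.comp_continuous (continuous_const.mul continuous_e)
      fun x => mem_ann_mul hd hr hr0 hr1 x
  rw [sy, dif_pos hc]
  rfl

/-- the circle integral of `z⁻¹ G z` over the circle of radius `R` -/
theorem circ_eq (G : ℂ → ℂ) {R : ℝ} (hR : 0 < R) :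
    (∮ z in C(0, R), (z - 0)⁻¹ • G z) =
      ∫ θ in (0 : ℝ)..2 * Real.pi, I * G (circleMap 0 R θ) := by
  rw [circleIntegral]
  refine intervalIntegral.integral_congr fun θ _ => ?_
  have h0 : circleMap 0 R θ ≠ 0 := circleMap_ne_center hR.ne'
  simp only [deriv_circleMap, sub_zero, smul_eq_mul]
  generalize circleMap 0 R θ = w at h0 ⊢
  field_simp

theorem coeff_scale {d r : ℝ} (hd : 0 < d) (hd1 : d < 1) (hr : 1 - d < r) (hr1 : r ≤ 1) {h : ℂ → ℂ}
    (hh : DifferentiableOn ℂ h (ann d)) (k : ℤ) :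
    fourierCoeff (fun x : UnitAddCircle => h (r * e x)) k =
      (r : ℂ) ^ k * fourierCoeff (fun x : UnitAddCircle => h (e x)) k := by
  have hr0 : 0 < r := by linarith
  obtain ⟨d', hd'⟩ : ∃ d' : ℝ, d' = (r - (1 - d)) / 2 := ⟨_, rfl⟩
  have hd'0 : 0 < d' := by rw [hd']; linarith
  have hsub : ∀ w ∈ ann d', (r : ℂ) * w ∈ ann d := by
    rintro w ⟨h1, h2⟩
    have e1 : ‖(r : ℂ) * w‖ = r * ‖w‖ := by
      rw [norm_mul, Complex.norm_real, Real.norm_eq_abs, abs_of_pos hr0]
    refine ⟨?_, ?_⟩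
    · rw [e1]
      have : r * (1 - d') < r * ‖w‖ := by gcongr
      have h3 : r * d' ≤ d' := by nlinarith
      rw [hd'] at this h3
      nlinarith
    · rw [e1]
      have : r * ‖w‖ < r * (1 + d') := by gcongr
      have h3 : r * d' ≤ d' := by nlinarith
      rw [hd'] at this h3
      nlinarith
  have hh' : DifferentiableOn ℂ (fun w => h (r * w)) (ann d') :=
    hh.comp ((differentiableOn_const _).mul differentiableOn_id) hsub
  rw [coeff_eq hd'0 hh' k, coeff_eq hd hh k,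
    circle_shift (diff_zpow_mul hd1 hh k) hr0 hr1 hr (by linarith), circ_eq _ one_pos,
    circ_eq _ hr0, smul_eq_mul, smul_eq_mul, mul_left_comm]
  congr 1
  rw [← intervalIntegral.integral_const_mul]
  refine intervalIntegral.integral_congr fun θ _ => ?_
  have h1 : circleMap 0 r θ = r * circleMap 0 1 θ := by
    rw [circleMap_zero, circleMap_zero]
    push_cast
    ring
  have h2 : (r : ℂ) ≠ 0 := by exact_mod_cast hr0.ne'
  have h3 : (r : ℂ) ^ k ≠ 0 := zpow_ne_zero _ h2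
  rw [h1, mul_zpow, zpow_neg (r : ℂ) k]
  field_simp

theorem coeff_sy {d r : ℝ} (hd : 0 < d) (hd1 : d < 1) (hr : 1 - d < r) (hr1 : r ≤ 1) {h : ℂ → ℂ}
    (hh : DifferentiableOn ℂ h (ann d)) (k : ℤ) :
    fourierCoeff (sy h r) k = (r : ℂ) ^ k * fourierCoeff (sy h 1) k := by
  have h1 : (sy h r : UnitAddCircle → ℂ) = fun x => h (r * e x) :=
    funext fun x => sy_apply hd hr (by linarith) hr1 hh x
  have h2 : (sy h 1 : UnitAddCircle → ℂ) = fun x => h (e x) :=
    funext fun x => by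
      rw [sy_apply hd (by linarith) one_pos le_rfl hh x]
      simp
  rw [h1, h2]
  exact coeff_scale hd hd1 hr hr1 hh k

/-! ### the dilation -/

/-- `Dl r f (z) = f (r z)`. -/
noncomputable def Dl (r : ℝ) : Hardy →L[ℂ] Hardy :=
  ∑' n : ℕ, ((r : ℂ) ^ n) • (coL n).smulRight (mono n)

theorem summable_Dl {r : ℝ} (hr0 : 0 ≤ r) (hr1 : r < 1) :
    Summable fun n : ℕ => ((r : ℂ) ^ n) • (coL n).smulRight (mono n) := by
  refine Summable.of_norm_bounded (summable_geometric_of_lt_one hr0 hr1) fun n => ?_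
  rw [norm_smul, norm_pow, Complex.norm_real, Real.norm_eq_abs, abs_of_nonneg hr0,
    ContinuousLinearMap.norm_smulRight_apply, norm_mono, mul_one]
  exact mul_le_of_le_one_right (by positivity) (norm_coL_le n)

theorem co_Dl {r : ℝ} (hr0 : 0 ≤ r) (hr1 : r < 1) (f : Hardy) (n : ℕ) :
    co (Dl r f) n = (r : ℂ) ^ n * co f n := by
  have h1 : HasSum (fun m : ℕ => coL n ((((r : ℂ) ^ m) • (coL m).smulRight (mono m)) f))
      (coL n (Dl r f)) :=
    ((summable_Dl hr0 hr1).hasSum.mapL (ContinuousLinearMap.apply ℂ Hardy f)).mapL (coL n)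
  have h2 : HasSum (fun m : ℕ => coL n ((((r : ℂ) ^ m) • (coL m).smulRight (mono m)) f))
      (coL n ((((r : ℂ) ^ n) • (coL n).smulRight (mono n)) f)) := by
    refine hasSum_single n fun m hm => ?_
    rw [smul_apply, map_smul, ContinuousLinearMap.smulRight_apply, map_smul,
      coL_apply n (mono m), co_mono, if_neg (Ne.symm hm), smul_zero, smul_zero]
  have h3 := h1.unique h2
  rw [coL_apply] at h3
  rw [h3, smul_apply, map_smul, ContinuousLinearMap.smulRight_apply, map_smul,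
    coL_apply n (mono n), co_mono, if_pos rfl, coL_apply]
  simp

theorem co_zero' (n : ℕ) : co 0 n = 0 := by
  rw [← coL_apply, map_zero]

theorem Dl_mono_zero {r : ℝ} (hr0 : 0 ≤ r) (hr1 : r < 1) : Dl r (mono 0) = mono 0 := by
  refine ext_co fun n => ?_
  rw [co_Dl hr0 hr1, co_mono]
  split_ifs with h
  · rw [h]; simp
  · simp

theorem Dl_S {r : ℝ} (hr0 : 0 ≤ r) (hr1 : r < 1) (f : Hardy) :
    Dl r (S f) = (r : ℂ) • S (Dl r f) := by
  refine ext_co fun n => ?_
  rw [co_Dl hr0 hr1, co_smul]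
  cases n with
  | zero => rw [co_S_zero, co_S_zero]; simp
  | succ n =>
    rw [co_S_succ, co_S_succ, co_Dl hr0 hr1, pow_succ]
    ring

theorem ev_Dl {r : ℝ} (hr0 : 0 ≤ r) (hr1 : r < 1) {z : ℂ} (hz : ‖z‖ < 1) (f : Hardy) :
    ev z (Dl r f) = ev (r * z) f := by
  have hz' : ‖(r : ℂ) * z‖ < 1 := by
    rw [norm_mul, Complex.norm_real, Real.norm_eq_abs, abs_of_nonneg hr0]
    nlinarith [norm_nonneg z]
  have h1 := hasSum_ev hz (Dl r f)
  have h2 := hasSum_ev hz' f
  refine h1.unique (hasSum_of_eq h2 fun n => ?_)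
  rw [co_Dl hr0 hr1, mul_pow]
  ring

theorem coL_zero_Dl {r : ℝ} (hr0 : 0 ≤ r) (hr1 : r < 1) (f : Hardy) :
    coL 0 (Dl r f) = coL 0 f := by
  rw [coL_apply, coL_apply, co_Dl hr0 hr1, pow_zero, one_mul]

/-- The dilation intertwines the Toeplitz operators. -/
theorem Dl_T {d r : ℝ} (hd : 0 < d) (hd1 : d < 1) (hr : 1 - d < r) (hr1 : r < 1) {h : ℂ → ℂ}
    (hh : DifferentiableOn ℂ h (ann d)) (f : Hardy) :
    Dl r (T (sy h 1) f) = T (sy h r) (Dl r f) := by
  have hr0 : 0 < r := by linarith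
  have hrc : (r : ℂ) ≠ 0 := by exact_mod_cast hr0.ne'
  refine ext_co fun m => ?_
  rw [co_Dl hr0.le hr1]
  have h1 := (hasSum_co_T (sy h 1) f m).mul_left ((r : ℂ) ^ m)
  have h2 := hasSum_co_T (sy h r) (Dl r f) m
  refine h1.unique (hasSum_of_eq h2 fun n => ?_)
  rw [co_Dl hr0.le hr1, coeff_sy hd hd1 hr hr1.le hh, zpow_sub₀ hrc, zpow_natCast, zpow_natCast]
  have h3 : (r : ℂ) ^ n ≠ 0 := pow_ne_zero _ hrc
  field_simp

end Pool.Agent.TBirG
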