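import Pool.Agent.TBirG.Kf

/-!
# Frames at the simple points
-/

set_option autoImplicit false

open MeasureTheory Complex Set Filter Topology Metric AddCircle
open scoped ComplexConjugate InnerProductSpace ENNReal

namespace Pool.Agent.TBirG

open Pool.Agent.TBir

/-- The point `z0` of the circle is simple: `phi' z0 ≠ 0` and the value `phi z0` is taken only once. -/
def Simple (phi : ℂ → ℂ) (z0 : ℂ) : Prop :=
  ‖z0‖ = 1 ∧ deriv phi z0 ≠ 0 ∧ ∀ z : ℂ, ‖z‖ = 1 → phi z = phi z0 → z = z0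

/-- The winding numbers about `l` of the circles of radius slightly less than `1` are nonnegative. -/
def Inn (phi : ℂ → ℂ) (l : ℂ) : Prop :=
  ∀ᶠ r : ℝ in 𝓝[<] 1, 0 ≤ (wind fun w => phi (r * w) - l).re

/-- `P` acts by the scalar `c` at the points of the disc near the simple point `z0`. -/
def SF (d : ℝ) (phi : ℂ → ℂ) (P : Hardy →L[ℂ] Hardy) (z0 c : ℂ) : Prop :=
  ∃ (s : ℝ) (L : ℂ → Hardy →L[ℂ] Hardy), 0 < s ∧ ball z0 s ⊆ ann (d / 2) ∧
    DifferentiableOn ℂ L (ball z0 s) ∧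
    (∀ z ∈ ball z0 s, L z * T (qs phi z) = 1) ∧
    (∀ z ∈ ball z0 s, T (qs phi z) * (L z * (P * T (qs phi z))) = P * T (qs phi z)) ∧
    ∀ z ∈ ball z0 s, ‖z‖ < 1 → ∀ g, ev z (L z (P (T (qs phi z) g))) = c * ev z g

theorem ann_half {d : ℝ} (hd : 0 < d) : ann (d / 2) ⊆ ann d := by
  rintro w ⟨h1, h2⟩
  exact ⟨by linarith, by linarith⟩

theorem sphere_mem_ann {d : ℝ} (hd : 0 < d) {z : ℂ} (hz : ‖z‖ = 1) : z ∈ ann d :=
  mem_sphere_ann hd (by simpa using hz)

/-- The difference quotient at a simple point has no zero on the circle. -/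
theorem dslope_ne {phi : ℂ → ℂ} {z0 : ℂ} (h : Simple phi z0) {z : ℂ}
    (hz : z ∈ sphere (0 : ℂ) 1) : dslope phi z0 z ≠ 0 := by
  rw [mem_sphere_zero_iff_norm] at hz
  by_cases h1 : z = z0
  · rw [h1, dslope_same]
    exact h.2.1
  · rw [dslope_of_ne _ h1, slope_def_field, div_ne_zero_iff]
    refine ⟨fun h2 => h1 (h.2.2 z hz (sub_eq_zero.1 h2)), sub_ne_zero.2 h1⟩

/-- The winding number of the difference quotient at a simple point. -/
theorem wind_dslope {d : ℝ} (hd : 0 < d) (hd1 : d < 1) {phi : ℂ → ℂ}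
    (hphi : DifferentiableOn ℂ phi (ann d)) {z0 : ℂ} (h : Simple phi z0)
    (hN : Inn phi (phi z0)) : 0 ≤ (wind (dslope phi z0)).re := by
  have hza := sphere_mem_ann hd h.1
  have hg := dslope_diff hphi hza
  have h1 := (wind_dil (analyticOnNhd_sphere hd hg) (fun z hz => dslope_ne h hz)).filter_mono
    (nhdsWithin_le_nhds (s := Iio (1 : ℝ)))
  have h2 : ∀ᶠ r : ℝ in 𝓝[<] 1, r < 1 := self_mem_nhdsWithin
  have h3 : ∀ᶠ r : ℝ in 𝓝[<] 1, 1 - d < r :=
    nhdsWithin_le_nhds (Ioi_mem_nhds (by linarith))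
  obtain ⟨r, ⟨ha, hb, hc⟩, hr1, hr, hr'⟩ := (h1.and (h2.and (h3.and hN))).exists
  have hr0 : 0 < r := by linarith
  have hrn : ‖z0‖ ≠ r := by rw [h.1]; exact hr1.ne'
  have e1 : (fun w => phi (r * w) - phi z0) =
      fun w => dslope phi z0 (r * w) * ((r : ℂ) * w - z0) := by
    funext w
    have := sub_smul_dslope phi z0 ((r : ℂ) * w)
    rw [smul_eq_mul] at this
    rw [← this]
    ring
  have e2 := wind_mul (f := fun w => dslope phi z0 (r * w)) (g := fun w => (r : ℂ) * w - z0) ha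
    (fun z _ => (analyticAt_const.mul analyticAt_id).sub analyticAt_const) hb
    (fun z hz h0 => by
      rw [mem_sphere_zero_iff_norm] at hz
      apply hrn
      rw [← sub_eq_zero.1 h0, norm_mul, hz, mul_one, Complex.norm_real, Real.norm_eq_abs,
        abs_of_pos hr0])
  rw [e1, e2, hc, wind_lin hr0 hrn, if_neg (by rw [h.1]; linarith), add_zero] at hr'
  exact hr'

/-- Near a point outside the closed disc, `T (qs z)` has the same range as `T - phi z`. -/
theorem conj_out {d : ℝ} (hd : 0 < d) (hd1 : d < 1) {phi : ℂ → ℂ}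
    (hphi : DifferentiableOn ℂ phi (ann d)) {P : Hardy →L[ℂ] Hardy}
    (hP : P * T (sy phi 1) = T (sy phi 1) * P) {z : ℂ} (hz : z ∈ ann d) (hz1 : 1 < ‖z‖) :
    ∃ B : Hardy →L[ℂ] Hardy, P * T (qs phi z) = T (qs phi z) * B := by
  obtain ⟨u, hu⟩ := isUnit_S_sub hz1
  have hf := fac_one hd hd1 hphi hz
  rw [← hu] at hf
  have hf' : T (qs phi z) = (T (sy phi 1) - phi z • (1 : Hardy →L[ℂ] Hardy)) *
      ((u⁻¹ : (Hardy →L[ℂ] Hardy)ˣ) : Hardy →L[ℂ] Hardy) := by
    rw [hf, mul_assoc, Units.mul_inv, mul_one]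
  have hcomm : P * (T (sy phi 1) - phi z • (1 : Hardy →L[ℂ] Hardy)) =
      (T (sy phi 1) - phi z • (1 : Hardy →L[ℂ] Hardy)) * P := by
    rw [mul_sub, sub_mul, hP, mul_smul_comm, smul_mul_assoc, mul_one, one_mul]
  refine ⟨(u : Hardy →L[ℂ] Hardy) * (P * ((u⁻¹ : (Hardy →L[ℂ] Hardy)ˣ) : Hardy →L[ℂ] Hardy)), ?_⟩
  calc P * T (qs phi z) = (P * (T (sy phi 1) - phi z • (1 : Hardy →L[ℂ] Hardy))) *
        ((u⁻¹ : (Hardy →L[ℂ] Hardy)ˣ) : Hardy →L[ℂ] Hardy) := by rw [hf', mul_assoc]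
    _ = (T (qs phi z) * (u : Hardy →L[ℂ] Hardy)) *
        (P * ((u⁻¹ : (Hardy →L[ℂ] Hardy)ˣ) : Hardy →L[ℂ] Hardy)) := by
      rw [hcomm, ← hf, mul_assoc]
    _ = _ := by rw [mul_assoc]

theorem tendsto_out {z0 : ℂ} (h : ‖z0‖ = 1) {eps : ℝ} (heps : 0 < eps) :
    ∃ z ∈ ball z0 eps, 1 < ‖z‖ := by
  refine ⟨((1 + eps / 2 : ℝ) : ℂ) * z0, ?_, ?_⟩
  · rw [mem_ball, dist_eq_norm]
    have : ((1 + eps / 2 : ℝ) : ℂ) * z0 - z0 = ((eps / 2 : ℝ) : ℂ) * z0 := by
      push_cast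
      ring
    rw [this, norm_mul, h, mul_one, Complex.norm_real, Real.norm_eq_abs, abs_of_pos (by linarith)]
    linarith
  · rw [norm_mul, h, mul_one, Complex.norm_real, Real.norm_eq_abs, abs_of_pos (by linarith)]
    linarith

theorem tendsto_in {z0 : ℂ} (h : ‖z0‖ = 1) {eps : ℝ} (heps : 0 < eps) :
    ∃ z ∈ ball z0 eps, ‖z‖ < 1 := by
  obtain ⟨t, ht⟩ : ∃ t : ℝ, t = min (eps / 2) (1 / 2) := ⟨_, rfl⟩
  have ht0 : 0 < t := by rw [ht]; exact lt_min (by linarith) (by norm_num)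
  have ht1 : t ≤ 1 / 2 := by rw [ht]; exact min_le_right _ _
  have ht2 : t ≤ eps / 2 := by rw [ht]; exact min_le_left _ _
  refine ⟨((1 - t : ℝ) : ℂ) * z0, ?_, ?_⟩
  · rw [mem_ball, dist_eq_norm]
    have : ((1 - t : ℝ) : ℂ) * z0 - z0 = ((-t : ℝ) : ℂ) * z0 := by
      push_cast
      ring
    rw [this, norm_mul, h, mul_one, Complex.norm_real, Real.norm_eq_abs, abs_neg, abs_of_pos ht0]
    linarith
  · rw [norm_mul, h, mul_one, Complex.norm_real, Real.norm_eq_abs, abs_of_pos (by linarith)]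
    linarith

/-- Existence of a frame at a simple point. -/
theorem exists_SF {d : ℝ} (hd : 0 < d) (hd1 : d < 1) {phi : ℂ → ℂ}
    (hphi : DifferentiableOn ℂ phi (ann d)) {z0 : ℂ} (h : Simple phi z0) (hN : Inn phi (phi z0))
    {P : Hardy →L[ℂ] Hardy} (hP : P * T (sy phi 1) = T (sy phi 1) * P) (hP2 : P * P = P) :
    ∃ c : ℂ, (c = 0 ∨ c = 1) ∧ SF d phi P z0 c := by
  have hza := sphere_mem_ann hd h.1
  have hza2 := sphere_mem_ann (half_pos hd) h.1
  have hg := dslope_diff hphi hza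
  have han := analyticOnNhd_sphere hd hg
  obtain ⟨n, hn⟩ := wind_int han fun z hz => dslope_ne h hz
  have hn0 : 0 ≤ n := by
    have := wind_dslope hd hd1 hphi h hN
    rw [hn] at this
    simpa using this
  obtain ⟨C, eta, _, heta, hW⟩ := exists_hasWH han (fun z hz => dslope_ne h hz)
    (Psi := qs phi z0) (fun x => by
      rw [qs, sy_apply hd (by linarith) one_pos le_rfl hg, Complex.ofReal_one, one_mul]) hn
  obtain ⟨L0, hL0⟩ := hW.exists_left heta hn0
  obtain ⟨r, hr, hrs⟩ := Metric.isOpen_iff.1 (isOpen_ann (d / 2)) z0 hza2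
  obtain ⟨s, L, hs, hsr, h1, h2, h3⟩ := abs_left hr (T_qs_diff hd hd1 hphi hrs) hL0 (P := P) (by
    intro eps heps
    obtain ⟨z, hz, hz1⟩ := tendsto_out h.1 (lt_min heps hr)
    have hz' : z ∈ ball z0 r := ball_subset_ball (min_le_right _ _) hz
    refine ⟨z, ball_subset_ball (min_le_left _ _) hz, ?_⟩
    filter_upwards [continuous_norm.continuousAt.eventually_const_lt hz1,
      isOpen_ball.mem_nhds hz'] with z' h4 h5
    exact conj_out hd hd1 hphi hP (ann_half hd (hrs h5)) h4)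
  have hsub : ball z0 s ⊆ ann (d / 2) := (ball_subset_ball hsr).trans hrs
  -- pointwise form
  have hLx : ∀ z ∈ ball z0 s, ∀ x, L z (T (qs phi z) x) = x := fun z hz x => by
    have := congrArg (fun B : Hardy →L[ℂ] Hardy => B x) (h2 z hz)
    simpa using this
  have hTL : ∀ z ∈ ball z0 s, ∀ x, T (qs phi z) (L z (P (T (qs phi z) x))) = P (T (qs phi z) x) :=
    fun z hz x => by
      have := congrArg (fun B : Hardy →L[ℂ] Hardy => B x) (h3 z hz)
      exact this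
  have hfac : ∀ z ∈ ball z0 s, ∀ x, T (qs phi z) ((S - z • (1 : Hardy →L[ℂ] Hardy)) x) =
      T (sy phi 1) x - phi z • x := fun z hz x => by
    have := congrArg (fun B : Hardy →L[ℂ] Hardy => B x)
      (fac_one hd hd1 hphi (ann_half hd (hsub hz)))
    exact this.symm
  have hPc : ∀ x, P (T (sy phi 1) x) = T (sy phi 1) (P x) := fun x =>
    congrArg (fun B : Hardy →L[ℂ] Hardy => B x) hP
  have hPP : ∀ x, P (P x) = P x := fun x => congrArg (fun B : Hardy →L[ℂ] Hardy => B x) hP2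
  -- `U (S - z) = (S - z) P`
  have hU : ∀ z ∈ ball z0 s, ∀ x, L z (P (T (qs phi z) ((S - z • (1 : Hardy →L[ℂ] Hardy)) x))) =
      (S - z • (1 : Hardy →L[ℂ] Hardy)) (P x) := fun z hz x => by
    rw [hfac z hz, map_sub, map_smul, hPc, ← hfac z hz, hLx z hz]
  -- the scalar
  have hev : ∀ z ∈ ball z0 s, ‖z‖ < 1 → ∀ g, ev z (L z (P (T (qs phi z) g))) =
      ev z (L z (P (T (qs phi z) (mono 0)))) * ev z g := by
    intro z hz hz1 g
    have h5 : ev z (mono 0) = 1 := by rw [ev_mono hz1]; simp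
    have h6 : ev z (g - ev z g • mono 0) = 0 := by
      rw [map_sub, map_smul, h5, smul_eq_mul, mul_one, sub_self]
    obtain ⟨k, hk⟩ := div_of_ev hz1 h6
    have h7 : g = ev z g • mono 0 + (S - z • (1 : Hardy →L[ℂ] Hardy)) k := by
      rw [hk]
      abel
    have h8 : L z (P (T (qs phi z) g)) = ev z g • L z (P (T (qs phi z) (mono 0))) +
        (S - z • (1 : Hardy →L[ℂ] Hardy)) (P k) := by
      conv_lhs => rw [h7]
      rw [map_add, map_add, map_add, hU z hz, map_smul, map_smul, map_smul]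
    rw [h8, map_add, map_smul, ev_S_sub hz1, sub_self, zero_mul, add_zero, smul_eq_mul, mul_comm]
  obtain ⟨cf, hcf⟩ : ∃ cf : ℂ → ℂ, cf = fun z => ev z (L z (P (T (qs phi z) (mono 0)))) := ⟨_, rfl⟩
  have hidem : ∀ z ∈ ball z0 s, ‖z‖ < 1 → cf z = 0 ∨ cf z = 1 := by
    intro z hz hz1
    have h5 : L z (P (T (qs phi z) (L z (P (T (qs phi z) (mono 0)))))) =
        L z (P (T (qs phi z) (mono 0))) := by
      rw [hTL z hz, hPP]
    have h6 := hev z hz hz1 (L z (P (T (qs phi z) (mono 0))))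
    rw [h5] at h6
    have h7 : cf z * cf z = cf z := by rw [hcf]; exact h6.symm
    have h8 : cf z * (cf z - 1) = 0 := by linear_combination h7
    rcases mul_eq_zero.1 h8 with h9 | h9
    · exact Or.inl h9
    · exact Or.inr (sub_eq_zero.1 h9)
  have hcd : DifferentiableOn ℂ cf (ball z0 s ∩ ball 0 1) := by
    have d1 : DifferentiableOn ℂ (fun z => T (qs phi z)) (ball z0 s) := T_qs_diff hd hd1 hphi hsub
    have d2 : DifferentiableOn ℂ (fun z => L z * (P * T (qs phi z))) (ball z0 s) :=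
      h1.mul (d1.const_mul P)
    have d3 : DifferentiableOn ℂ (fun z => (L z * (P * T (qs phi z))) (mono 0)) (ball z0 s) :=
      d2.clm_apply (differentiableOn_const _)
    rw [hcf]
    exact (ev_diffOn.mono inter_subset_right).clm_apply (d3.mono inter_subset_left)
  have hpre : IsPreconnected (ball z0 s ∩ ball (0 : ℂ) 1) :=
    ((convex_ball z0 s).inter (convex_ball 0 1)).isPreconnected
  obtain ⟨z1, hz1, hz1'⟩ := tendsto_in h.1 hs
  have hz1m : z1 ∈ ball z0 s ∩ ball (0 : ℂ) 1 := ⟨hz1, by simpa using hz1'⟩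
  have hconst : ∀ z ∈ ball z0 s ∩ ball (0 : ℂ) 1, cf z = cf z1 := by
    intro z hz
    have himg : IsPreconnected (cf '' (ball z0 s ∩ ball (0 : ℂ) 1)) :=
      hpre.image _ hcd.continuousOn
    have hsub2 : cf '' (ball z0 s ∩ ball (0 : ℂ) 1) ⊆ {0, 1} := by
      rintro _ ⟨w, hw, rfl⟩
      exact hidem w hw.1 (by simpa using hw.2)
    have hfin : (cf '' (ball z0 s ∩ ball (0 : ℂ) 1)).Finite :=
      (Set.toFinite {0, 1}).subset hsub2
    by_contra hne
    exact himg.infinite_of_nontrivial ⟨cf z, ⟨z, hz, rfl⟩, cf z1, ⟨z1, hz1m, rfl⟩, hne⟩ hfin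
  refine ⟨cf z1, hidem z1 hz1 hz1', s, L, hs, hsub, h1, h2, h3, fun z hz hz2 g => ?_⟩
  have h5 := hev z hz hz2 g
  have h6 := hconst z ⟨hz, by simpa using hz2⟩
  rw [hcf] at h6 ⊢
  rw [h5]
  exact congrArg (· * ev z g) h6

end Pool.Agent.TBirG
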