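import Pool.Agent.TBirG.Qs

/-!
# The functional `kf`

`kf z f` is the value at `z` of `(phi - phi z) h`, where `(T - phi z) h = f` on the circle of radius
`r`.  It vanishes on the range of `T - phi z` and takes the value `phi' z` at `T (qs z) 1`.
-/

set_option autoImplicit false

open MeasureTheory Complex Set Filter Topology Metric AddCircle
open scoped ComplexConjugate InnerProductSpace ENNReal

namespace Pool.Agent.TBirG

open Pool.Agent.TBir

/-- The functional. -/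
noncomputable def kf (Pr L : Hardy →L[ℂ] Hardy) (r : ℝ) (l z : ℂ) (f : Hardy) : ℂ :=
  ev z f + coL 0 ((Pr - l • (1 : Hardy →L[ℂ] Hardy)) ((r : ℂ) • S (Rs r z (L (Dl r f)))))

theorem kf_add (Pr L : Hardy →L[ℂ] Hardy) (r : ℝ) (l z : ℂ) (f g : Hardy) :
    kf Pr L r l z (f + g) = kf Pr L r l z f + kf Pr L r l z g := by
  simp only [kf, map_add, smul_add]
  ring

theorem kf_smul (Pr L : Hardy →L[ℂ] Hardy) (r : ℝ) (l z c : ℂ) (f : Hardy) :
    kf Pr L r l z (c • f) = c * kf Pr L r l z f := by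
  simp only [kf, map_smul, smul_eq_mul]
  ring

theorem Sa_T_S (Ps : CT) : Sa * T Ps * S = T Ps := by
  have h1 : Minus (fourier (-1) : CT) := minus_fourier (by norm_num)
  have h2 : Plus (fourier 1 : CT) := plus_fourier (by norm_num)
  unfold Sa S
  rw [← T_mul_left h1, ← T_mul_right _ h2]
  congr 1
  ext x
  simp only [ContinuousMap.mul_apply]
  rw [fourier_eq_e, fourier_eq_e, zpow_neg, zpow_one]
  have := e_ne_zero x
  field_simp

theorem Sa_TS_apply (Ps : CT) (f : Hardy) : Sa (T Ps (S f)) = T Ps f := by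
  have := congrArg (fun B : Hardy →L[ℂ] Hardy => B f) (Sa_T_S Ps)
  simpa using this

/-- `ev z` on `(T - l) S f` -/
theorem ev_TS (Ps : CT) (l : ℂ) {z : ℂ} (hz : ‖z‖ < 1) (f : Hardy) :
    ev z ((T Ps - l • (1 : Hardy →L[ℂ] Hardy)) (S f)) =
      z * ev z ((T Ps - l • (1 : Hardy →L[ℂ] Hardy)) f) +
        coL 0 ((T Ps - l • (1 : Hardy →L[ℂ] Hardy)) (S f)) := by
  have h1 : (T Ps - l • (1 : Hardy →L[ℂ] Hardy)) (S f) = T Ps (S f) - l • S f := rfl
  have h2 : (T Ps - l • (1 : Hardy →L[ℂ] Hardy)) f = T Ps f - l • f := rfl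
  have h3 := evB_Sa hz (T Ps (S f))
  rw [Sa_TS_apply] at h3
  rw [h1, h2, map_sub, map_sub, map_sub, map_smul, map_smul, map_smul, ev_S hz, coL_apply,
    coL_apply, co_S_zero, smul_zero, sub_zero, smul_eq_mul, smul_eq_mul]
  linear_combination -h3

section

variable {d r : ℝ} {phi : ℂ → ℂ} {z : ℂ} {L : Hardy →L[ℂ] Hardy}

theorem kf_range_S (hd : 0 < d) (hd1 : d < 1) (hr : 1 - d < r) (hr1 : r < 1)
    (hphi : DifferentiableOn ℂ phi (ann d)) (hz : r < ‖z‖) (hz1 : ‖z‖ < 1) {l : ℂ}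
    (hL : L * (T (sy phi r) - l • (1 : Hardy →L[ℂ] Hardy)) = 1) (v : Hardy) :
    kf (T (sy phi r)) L r l z
      ((T (sy phi 1) - l • (1 : Hardy →L[ℂ] Hardy)) ((S - z • (1 : Hardy →L[ℂ] Hardy)) v)) = 0 := by
  have hr0 : 0 ≤ r := by linarith
  have hLx : ∀ x, L ((T (sy phi r) - l • (1 : Hardy →L[ℂ] Hardy)) x) = x := fun x => by
    have := congrArg (fun B : Hardy →L[ℂ] Hardy => B x) hL
    simpa using this
  have hDT : ∀ x, Dl r ((T (sy phi 1) - l • (1 : Hardy →L[ℂ] Hardy)) x) =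
      (T (sy phi r) - l • (1 : Hardy →L[ℂ] Hardy)) (Dl r x) := fun x => by
    change Dl r (T (sy phi 1) x - l • x) = T (sy phi r) (Dl r x) - l • Dl r x
    rw [map_sub, map_smul, Dl_T hd hd1 hr hr1 hphi]
  have hDS : Dl r ((S - z • (1 : Hardy →L[ℂ] Hardy)) v) =
      -((z • (1 : Hardy →L[ℂ] Hardy) - (r : ℂ) • S) (Dl r v)) := by
    change Dl r (S v - z • v) = -(z • Dl r v - (r : ℂ) • S (Dl r v))
    rw [map_sub, map_smul, Dl_S hr0 hr1]
    abel
  have hR : Rs r z ((z • (1 : Hardy →L[ℂ] Hardy) - (r : ℂ) • S) (Dl r v)) = Dl r v := by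
    have := congrArg (fun B : Hardy →L[ℂ] Hardy => B (Dl r v)) (Rs_mul hr0 hz)
    exact this
  rw [kf, hDT, hLx, hDS, map_neg, hR, map_neg, smul_neg, ← Dl_S hr0 hr1, map_neg, ← hDT, map_neg,
    coL_zero_Dl hr0 hr1]
  have h1 : (T (sy phi 1) - l • (1 : Hardy →L[ℂ] Hardy)) ((S - z • (1 : Hardy →L[ℂ] Hardy)) v) =
      (T (sy phi 1) - l • (1 : Hardy →L[ℂ] Hardy)) (S v) -
        z • (T (sy phi 1) - l • (1 : Hardy →L[ℂ] Hardy)) v := by
    have : (S - z • (1 : Hardy →L[ℂ] Hardy)) v = S v - z • v := rfl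
    rw [this, map_sub, map_smul]
  rw [h1, map_sub, map_smul, ev_TS _ _ hz1, smul_eq_mul]
  ring

theorem kf_range_one (hd : 0 < d) (hd1 : d < 1) (hr : 1 - d < r) (hr1 : r < 1)
    (hphi : DifferentiableOn ℂ phi (ann d)) (hz : r < ‖z‖) (hz1 : ‖z‖ < 1)
    (hL : L * (T (sy phi r) - phi z • (1 : Hardy →L[ℂ] Hardy)) = 1) :
    kf (T (sy phi r)) L r (phi z) z
      ((T (sy phi 1) - phi z • (1 : Hardy →L[ℂ] Hardy)) (mono 0)) = 0 := by
  have hr0 : 0 ≤ r := by linarith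
  have hLx : ∀ x, L ((T (sy phi r) - phi z • (1 : Hardy →L[ℂ] Hardy)) x) = x := fun x => by
    have := congrArg (fun B : Hardy →L[ℂ] Hardy => B x) hL
    simpa using this
  have hDT : ∀ x, Dl r ((T (sy phi 1) - phi z • (1 : Hardy →L[ℂ] Hardy)) x) =
      (T (sy phi r) - phi z • (1 : Hardy →L[ℂ] Hardy)) (Dl r x) := fun x => by
    change Dl r (T (sy phi 1) x - phi z • x) = T (sy phi r) (Dl r x) - phi z • Dl r x
    rw [map_sub, map_smul, Dl_T hd hd1 hr hr1 hphi]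
  have h1 : coL 0 ((r : ℂ) • S (Rs r z (mono 0))) = 0 := by
    rw [map_smul, coL_apply, co_S_zero, smul_zero]
  have h2 := star_eq hd hd1 hr hphi hz hz1
  have h3 : ev z (mono 0) = 1 := by rw [ev_mono hz1]; simp
  rw [kf, hDT, hLx, Dl_mono_zero hr0 hr1]
  change ev z (T (sy phi 1) (mono 0) - phi z • mono 0) +
    coL 0 (T (sy phi r) ((r : ℂ) • S (Rs r z (mono 0))) -
      phi z • ((r : ℂ) • S (Rs r z (mono 0)))) = 0
  rw [map_sub, map_sub, map_smul (ev z), map_smul (coL 0) (phi z), h1, h3, smul_zero, sub_zero,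
    smul_eq_mul, mul_one]
  linear_combination h2

/-- `kf` vanishes on the range. -/
theorem kf_range (hd : 0 < d) (hd1 : d < 1) (hr : 1 - d < r) (hr1 : r < 1)
    (hphi : DifferentiableOn ℂ phi (ann d)) (hz : r < ‖z‖) (hz1 : ‖z‖ < 1)
    (hL : L * (T (sy phi r) - phi z • (1 : Hardy →L[ℂ] Hardy)) = 1) (v : Hardy) :
    kf (T (sy phi r)) L r (phi z) z
      ((T (sy phi 1) - phi z • (1 : Hardy →L[ℂ] Hardy)) v) = 0 := by
  have h3 : ev z (mono 0) = 1 := by rw [ev_mono hz1]; simp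
  have h4 : ev z (v - ev z v • mono 0) = 0 := by
    rw [map_sub, map_smul, h3, smul_eq_mul, mul_one, sub_self]
  obtain ⟨g, hg⟩ := div_of_ev hz1 h4
  have h5 : v = ev z v • mono 0 + (S - z • (1 : Hardy →L[ℂ] Hardy)) g := by
    rw [hg]
    abel
  rw [h5, map_add, map_smul, kf_add, kf_smul, kf_range_one hd hd1 hr hr1 hphi hz hz1 hL,
    kf_range_S hd hd1 hr hr1 hphi hz hz1 hL, mul_zero, add_zero]

/-- The value of `kf` at `T (qs z) 1`. -/
theorem kf_qs (hd : 0 < d) (hd1 : d < 1) (hr : 1 - d < r) (hr1 : r < 1)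
    (hphi : DifferentiableOn ℂ phi (ann d)) (hz : r < ‖z‖) (hz1 : ‖z‖ < 1)
    (hL : L * (T (sy phi r) - phi z • (1 : Hardy →L[ℂ] Hardy)) = 1) :
    kf (T (sy phi r)) L r (phi z) z (T (qs phi z) (mono 0)) = deriv phi z := by
  have hr0 : 0 ≤ r := by linarith
  have hza : z ∈ ann d := ⟨by linarith, by linarith⟩
  have hLx : ∀ x, L ((T (sy phi r) - phi z • (1 : Hardy →L[ℂ] Hardy)) x) = x := fun x => by
    have := congrArg (fun B : Hardy →L[ℂ] Hardy => B x) hL
    simpa using this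
  have hR : ∀ x, (z • (1 : Hardy →L[ℂ] Hardy) - (r : ℂ) • S) (Rs r z x) = x := fun x => by
    have := congrArg (fun B : Hardy →L[ℂ] Hardy => B x) (mul_Rs hr0 hz)
    exact this
  have hR' : ∀ x, Rs r z ((z • (1 : Hardy →L[ℂ] Hardy) - (r : ℂ) • S) x) = x := fun x => by
    have := congrArg (fun B : Hardy →L[ℂ] Hardy => B x) (Rs_mul hr0 hz)
    exact this
  have hfac : ∀ x, (T (sy phi r) - phi z • (1 : Hardy →L[ℂ] Hardy)) x =
      -T (sy (dslope phi z) r) ((z • (1 : Hardy →L[ℂ] Hardy) - (r : ℂ) • S) x) := fun x => by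
    have := congrArg (fun B : Hardy →L[ℂ] Hardy => B x) (fac_r hd hd1 hr hr1.le hphi hza)
    rw [← map_neg]
    have e1 : -((z • (1 : Hardy →L[ℂ] Hardy) - (r : ℂ) • S) x) =
        ((r : ℂ) • S - z • (1 : Hardy →L[ℂ] Hardy)) x := by
      change -(z • x - (r : ℂ) • S x) = (r : ℂ) • S x - z • x
      abel
    rw [e1]
    exact this
  -- `S` commutes with the resolvent
  have hS : ∀ x, Rs r z (S x) = S (Rs r z x) := fun x => by
    have e2 : (z • (1 : Hardy →L[ℂ] Hardy) - (r : ℂ) • S) (S (Rs r z x)) =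
        S ((z • (1 : Hardy →L[ℂ] Hardy) - (r : ℂ) • S) (Rs r z x)) := by
      change z • S (Rs r z x) - (r : ℂ) • S (S (Rs r z x)) =
        S (z • Rs r z x - (r : ℂ) • S (Rs r z x))
      rw [map_sub, map_smul, map_smul]
    rw [hR] at e2
    rw [← e2, hR']
  have h1 : L (Dl r (T (qs phi z) (mono 0))) = -Rs r z (mono 0) := by
    rw [qs, Dl_T hd hd1 hr hr1 (dslope_diff hphi hza), Dl_mono_zero hr0 hr1]
    have e3 : T (sy (dslope phi z) r) (mono 0) =
        (T (sy phi r) - phi z • (1 : Hardy →L[ℂ] Hardy)) (-Rs r z (mono 0)) := by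
      rw [hfac, map_neg, hR, map_neg, neg_neg]
    rw [e3, hLx]
  have h2 := star_eq hd hd1 hr (dslope_diff hphi hza) hz hz1
  rw [dslope_same] at h2
  rw [kf, h1, map_neg, map_neg, smul_neg, map_neg, hfac, neg_neg, ← hS, ← map_smul (Rs r z),
    hR]
  exact h2

end

end Pool.Agent.TBirG
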