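import Pool.Agent.TBirG.Rng

/-!
# The conclusion for nonnegative inner winding numbers
-/

set_option autoImplicit false

open MeasureTheory Complex Set Filter Topology Metric AddCircle
open scoped ComplexConjugate InnerProductSpace ENNReal

namespace Pool.Agent.TBirG

open Pool.Agent.TBir

/-- The extension of `l ↦ ev z (T - l)⁻¹ f` across the curve. -/
theorem ext_loc {d : ℝ} (hd : 0 < d) (hd1 : d < 1) {phi : ℂ → ℂ}
    (hphi : DifferentiableOn ℂ phi (ann d)) (hNC : NC phi) {f : Hardy} {hh : ℂ → Hardy}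
    (hh1 : ∀ l ∉ J phi, (T (sy phi 1) - l • (1 : Hardy →L[ℂ] Hardy)) (hh l) = f) {z : ℂ}
    (hz : ‖z‖ < 1) {l0 : ℂ} (hN : Inn phi l0) :
    ∃ r > 0, ∃ G : ℂ → ℂ, DifferentiableOn ℂ G (ball l0 r) ∧
      ∀ l ∈ ball l0 r, l ∉ J phi → G l = ev z (hh l) := by
  obtain ⟨r, hzr, hr, hr0, hr1, ρ, L, hρ, hLd, hL⟩ := exists_Lr hd hphi hNC hN hz
  have hrc : (r : ℂ) ≠ 0 := by exact_mod_cast hr0.ne'
  refine ⟨ρ, hρ, fun l => ev (z / r) (L l (Dl r f)), ?_, fun l hl hlJ => ?_⟩
  · exact (ev (z / r)).differentiable.comp_differentiableOn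
      (hLd.clm_apply (differentiableOn_const _))
  · have h1 : Dl r f = (T (sy phi r) - l • (1 : Hardy →L[ℂ] Hardy)) (Dl r (hh l)) := by
      conv_lhs => rw [← hh1 l hlJ]
      change Dl r (T (sy phi 1) (hh l) - l • hh l) = T (sy phi r) (Dl r (hh l)) - l • Dl r (hh l)
      rw [map_sub, map_smul, Dl_T hd hd1 hr hr1 hphi]
    have h2 : L l (Dl r f) = Dl r (hh l) := by
      rw [h1]
      exact congrArg (fun B : Hardy →L[ℂ] Hardy => B _) (hL l hl)
    have h3 : ‖z / r‖ < 1 := by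
      rw [norm_div, Complex.norm_real, Real.norm_eq_abs, abs_of_pos hr0, div_lt_one hr0]
      exact hzr
    change ev (z / r) (L l (Dl r f)) = ev z (hh l)
    rw [h2, ev_Dl hr0.le hr1 h3]
    congr 2
    field_simp

theorem eq_zero_all {d : ℝ} (hd : 0 < d) (hd1 : d < 1) {phi : ℂ → ℂ}
    (hphi : DifferentiableOn ℂ phi (ann d)) (hNC : NC phi) (hN : ∀ l, Inn phi l) {f : Hardy}
    (h : ∀ l ∉ J phi, InR phi f l) : f = 0 := by
  have hpa : AnalyticOnNhd ℂ phi (sphere 0 1) := analyticOnNhd_sphere hd hphi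
  choose! hh hh1 using h
  obtain ⟨R, hR⟩ := wd_large hpa
  have key : ∀ z : ℂ, ‖z‖ < 1 → ∀ l ∉ J phi, ev z (hh l) = 0 := by
    intro z hz l hl
    obtain ⟨F', hF', hF⟩ := glue (dense_J hpa) isOpen_univ (F := fun l => ev z (hh l))
      (fun l0 _ => ext_loc hd hd1 hphi hNC hh1 hz (hN l0))
    have hd : Differentiable ℂ F' := differentiableOn_univ.1 hF'
    have ht : Tendsto F' (cocompact ℂ) (𝓝 0) := by
      rw [tendsto_zero_iff_norm_tendsto_zero]
      have hb : ∀ᶠ w in cocompact ℂ, ‖F' w‖ ≤ ‖ev z‖ * (‖f‖ / (‖w‖ - ‖T (sy phi 1)‖)) := by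
        have h1 : ∀ᶠ w in cocompact ℂ, max R ‖T (sy phi 1)‖ < ‖w‖ :=
          (tendsto_norm_cocompact_atTop (E := ℂ)).eventually_gt_atTop _
        filter_upwards [h1] with w hw
        have hwJ := (hR w ((le_max_left _ _).trans_lt hw)).1
        rw [hF w (mem_univ w) hwJ]
        refine ((ev z).le_opNorm _).trans ?_
        exact mul_le_mul_of_nonneg_left
          (LiouA_bound (hh1 w hwJ) ((le_max_right _ _).trans_lt hw)) (norm_nonneg _)
      refine squeeze_zero' (Eventually.of_forall fun _ => norm_nonneg _) hb ?_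
      have h2 : Tendsto (fun w : ℂ => ‖w‖ - ‖T (sy phi 1)‖) (cocompact ℂ) atTop :=
        tendsto_atTop_add_const_right _ _ (tendsto_norm_cocompact_atTop (E := ℂ))
      have h3 : Tendsto (fun w : ℂ => ‖f‖ / (‖w‖ - ‖T (sy phi 1)‖)) (cocompact ℂ) (𝓝 0) :=
        h2.const_div_atTop _
      simpa using h3.const_mul ‖ev z‖
    rw [← hF l (mem_univ l) hl]
    exact hd.apply_eq_of_tendsto_cocompact l ht
  obtain ⟨l, hl⟩ : ∃ l : ℂ, R < ‖l‖ := by
    refine ⟨((|R| + 1 : ℝ) : ℂ), ?_⟩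
    rw [Complex.norm_real, Real.norm_eq_abs, abs_of_pos (by positivity)]
    linarith [le_abs_self R]
  have hlJ := (hR l hl).1
  have h0 : hh l = 0 := ev_ext isOpen_ball ⟨0, mem_ball_self one_pos⟩ (subset_refl _)
    (fun z hz => key z (by simpa using hz) l hlJ)
  rw [← hh1 l hlJ, h0, map_zero]

/-- Every idempotent of the commutant is trivial. -/
theorem triv {d : ℝ} (hd : 0 < d) (hd1 : d < 1) {phi : ℂ → ℂ}
    (hphi : DifferentiableOn ℂ phi (ann d)) {Phi : CT}
    (hPhi : ∀ x, Phi x = phi (e x)) (hsy : Phi = sy phi 1) (hNC : NC phi)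
    (hfin : {z : ℂ | ‖z‖ = 1 ∧ ¬ Simple phi z}.Finite) (hN : ∀ l, Inn phi l)
    {P : Hardy →L[ℂ] Hardy} (hP : P * T (sy phi 1) = T (sy phi 1) * P) (hP2 : P * P = P) :
    P = 0 ∨ P = 1 := by
  have key : ∀ Q : Hardy →L[ℂ] Hardy, Q * Q = Q → (∀ z, Simple phi z → SF d phi Q z 0) →
      Q = 0 := by
    intro Q hQ hS
    ext f : 1
    have hf : Q (Q f) = Q f := congrArg (fun B : Hardy →L[ℂ] Hardy => B f) hQ
    exact eq_zero_all hd hd1 hphi hNC hN
      (mem_all hd hd1 hphi hPhi hsy hfin (fun l _ => hN l) hS hf)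
  obtain ⟨c, hc, hS⟩ := exists_const hd hd1 hphi hNC hfin hN hP hP2
  rcases hc with rfl | rfl
  · exact Or.inl (key P hP2 hS)
  · right
    have h1 : (1 - P) * (1 - P) = 1 - P := by
      rw [mul_sub, mul_one, sub_mul, one_mul, hP2, sub_self, sub_zero]
    have h2 := key (1 - P) h1 fun z hz => by
      obtain ⟨s, L, hs, hsub, g0, g1, g2, g3⟩ := hS z hz
      refine ⟨s, L, hs, hsub, g0, g1, fun w hw => ?_, fun w hw hw1 g => ?_⟩
      · have e1 := g1 w hw
        have e2 := g2 w hw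
        rw [sub_mul, one_mul, mul_sub, mul_sub, e2, e1, mul_one]
      · have e1 : L w (T (qs phi w) g) = g :=
          congrArg (fun B : Hardy →L[ℂ] Hardy => B g) (g1 w hw)
        have e2 := g3 w hw hw1 g
        have e3 : (1 - P) (T (qs phi w) g) = T (qs phi w) g - P (T (qs phi w) g) := rfl
        rw [e3, map_sub, map_sub, e1, e2]
        ring
    rw [sub_eq_zero] at h2
    exact h2.symm

end Pool.Agent.TBirG
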