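import Pool.Agent.TBirG.Lio

/-!
# One-sided symbols
-/

set_option autoImplicit false

open MeasureTheory Complex Set Filter Topology Metric AddCircle
open scoped ComplexConjugate InnerProductSpace ENNReal

namespace Pool.Agent.TBirG

open Pool.Agent.TBir

/-- The winding numbers about `l` of the circles of radius slightly more than `1` are `≤ 0`. -/
def Out (phi : ℂ → ℂ) (l : ℂ) : Prop :=
  ∀ᶠ r : ℝ in 𝓝[>] 1, (wind fun w => phi (r * w) - l).re ≤ 0

theorem infinite_arc {z0 : ℂ} (hz0 : ‖z0‖ = 1) {U : Set ℂ} (hU : U ∈ 𝓝 z0) :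
    (sphere (0 : ℂ) 1 ∩ U).Infinite := by
  have hc : Continuous fun t : ℝ => z0 * Complex.exp (t * I) := by fun_prop
  have h3 : ∀ᶠ t : ℝ in 𝓝 0, z0 * Complex.exp (t * I) ∈ U := by
    refine hc.continuousAt.eventually ?_
    simpa using hU
  obtain ⟨δ, hδ, h4⟩ := Metric.eventually_nhds_iff_ball.1 h3
  have h5 : (fun t : ℝ => z0 * Complex.exp (t * I)) '' (Ioo 0 (min δ 1)) ⊆
      sphere (0 : ℂ) 1 ∩ U := by
    rintro _ ⟨t, ht, rfl⟩
    refine ⟨?_, h4 t ?_⟩
    · simp [hz0, Complex.norm_exp_ofReal_mul_I]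
    · rw [mem_ball, dist_zero_right, Real.norm_eq_abs, abs_of_pos ht.1]
      exact ht.2.trans_le (min_le_left _ _)
  have h6 : InjOn (fun t : ℝ => z0 * Complex.exp (t * I)) (Ioo 0 (min δ 1)) := by
    intro a ha b hb hab
    have hz : z0 ≠ 0 := by
      rintro rfl
      simp at hz0
    have h7 := mul_left_cancel₀ hz hab
    rw [Complex.exp_eq_exp_iff_exists_int] at h7
    obtain ⟨n, hn⟩ := h7
    have h8 : (a : ℂ) = b + n * (2 * Real.pi) := by
      have hI := Complex.I_ne_zero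
      apply mul_right_cancel₀ hI
      rw [hn]
      ring
    have h9 : a = b + n * (2 * Real.pi) := by exact_mod_cast h8
    have ha1 : a < 1 := ha.2.trans_le (min_le_right _ _)
    have hb1 : b < 1 := hb.2.trans_le (min_le_right _ _)
    have ha0 : 0 < a := ha.1
    have hb0 : 0 < b := hb.1
    have hpi := Real.pi_gt_three
    have h10 : n = 0 := by
      by_contra hn0
      rcases lt_or_gt_of_ne hn0 with h | h
      · have : (n : ℝ) ≤ -1 := by exact_mod_cast (show n ≤ -1 by omega)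
        nlinarith
      · have : (1 : ℝ) ≤ n := by exact_mod_cast (show 1 ≤ n by omega)
        nlinarith
    rw [h9, h10]
    simp
  exact ((Set.Ioo_infinite (lt_min hδ one_pos)).image h6).mono h5

theorem nc_of_inj {phi : ℂ → ℂ} (hana : AnalyticOnNhd ℂ phi (sphere 0 1)) {E : Set ℂ}
    (hE : E.Finite) (hinj : InjOn phi (sphere 0 1 \ E)) : NC phi := by
  intro z hz l
  have hz' : ‖z‖ = 1 := by simpa using hz
  rcases (hana z hz).eventually_eq_or_eventually_ne (analyticAt_const (v := l)) with h | h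
  · exfalso
    have h1 := (infinite_arc hz' h).sdiff hE
    obtain ⟨a, ha, b, hb, hab⟩ := h1.nontrivial
    exact hab (hinj ⟨ha.1.1, ha.2⟩ ⟨hb.1.1, hb.2⟩ (ha.1.2.trans hb.1.2.symm))
  · exact h

theorem fin_of_punct {p : ℂ → Prop}
    (h : ∀ z ∈ sphere (0 : ℂ) 1, ∀ᶠ w in 𝓝[≠] z, ¬ p w) :
    {z : ℂ | z ∈ sphere (0 : ℂ) 1 ∧ p z}.Finite := by
  have h1 : ∀ z ∈ sphere (0 : ℂ) 1, ∃ U ∈ 𝓝 z, ∀ w ∈ U, p w → w = z := by
    intro z hz
    have h2 := eventually_nhdsWithin_iff.1 (h z hz)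
    refine ⟨_, h2, fun w hw hp => ?_⟩
    by_contra hne
    exact hw hne hp
  choose! U hU hU2 using h1
  obtain ⟨t, ht, ht2⟩ := (isCompact_sphere (0 : ℂ) 1).elim_nhds_subcover U hU
  refine t.finite_toSet.subset ?_
  rintro z ⟨hz, hp⟩
  obtain ⟨q, hq, hq2⟩ := mem_iUnion₂.1 (ht2 hz)
  rw [hU2 q (ht q hq) z hq2 hp]
  exact hq

theorem fin_simple {phi : ℂ → ℂ} (hana : AnalyticOnNhd ℂ phi (sphere 0 1)) {E : Set ℂ}
    (hE : E.Finite) (hinj : InjOn phi (sphere 0 1 \ E)) :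
    {z : ℂ | ‖z‖ = 1 ∧ ¬ Simple phi z}.Finite := by
  have hNC := nc_of_inj hana hE hinj
  have h1 : {z : ℂ | z ∈ sphere (0 : ℂ) 1 ∧ deriv phi z = 0}.Finite := by
    refine fin_of_punct fun z hz => ?_
    rcases (hana z hz).deriv.eventually_eq_or_eventually_ne (analyticAt_const (v := (0 : ℂ))) with
      h | h
    · exfalso
      -- locally constant
      have h2 : ∀ᶠ w in 𝓝 z, AnalyticAt ℂ phi w := (hana z hz).eventually_analyticAt
      obtain ⟨s, hs, hs'⟩ := Metric.eventually_nhds_iff_ball.1 (h.and h2)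
      have h3 : ∀ w ∈ ball z s, phi w = phi z := by
        intro w hw
        refine (convex_ball z s).is_const_of_fderivWithin_eq_zero (𝕜 := ℂ)
          (fun v hv => (hs' v hv).2.differentiableAt.differentiableWithinAt) (fun v hv => ?_) hw
          (mem_ball_self hs)
        rw [fderivWithin_of_isOpen isOpen_ball hv]
        ext
        rw [fderiv_eq_smul_deriv, (hs' v hv).1]
        simp
      have h4 := hNC z hz (phi z)
      have h5 : ∀ᶠ w in 𝓝[≠] z, phi w = phi z :=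
        nhdsWithin_le_nhds (Metric.eventually_nhds_iff_ball.2 ⟨s, hs, h3⟩)
      obtain ⟨w, hw⟩ := (h4.and h5).exists
      exact hw.1 hw.2
    · filter_upwards [h] with w hw using hw
  have h2 : ∀ l, {z : ℂ | z ∈ sphere (0 : ℂ) 1 ∧ phi z = l}.Finite := fun l =>
    fin_of_punct fun z hz => hNC z hz l
  have h3 : (⋃ z' ∈ E, {z : ℂ | z ∈ sphere (0 : ℂ) 1 ∧ phi z = phi z'}).Finite :=
    hE.biUnion fun z' _ => h2 (phi z')
  refine ((h1.union hE).union h3).subset ?_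
  rintro z ⟨hz, hns⟩
  have hzs : z ∈ sphere (0 : ℂ) 1 := by simpa using hz
  by_cases hd : deriv phi z = 0
  · exact Or.inl (Or.inl ⟨hzs, hd⟩)
  · have h4 : ∃ z', ‖z'‖ = 1 ∧ phi z' = phi z ∧ z' ≠ z := by
      by_contra hcon
      push Not at hcon
      exact hns ⟨hz, hd, hcon⟩
    obtain ⟨z', hz', he, hne⟩ := h4
    have hzs' : z' ∈ sphere (0 : ℂ) 1 := by simpa using hz'
    by_cases hzE : z ∈ E
    · exact Or.inl (Or.inr hzE)
    · right
      have hzE' : z' ∈ E := by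
        by_contra h
        exact hne (hinj ⟨hzs', h⟩ ⟨hzs, hzE⟩ he)
      exact mem_biUnion hzE' ⟨hzs, he.symm⟩

theorem bir_inn {phi : ℂ → ℂ} (hana : AnalyticOnNhd ℂ phi (sphere 0 1)) {E : Set ℂ}
    (hE : E.Finite) (hinj : InjOn phi (sphere 0 1 \ E)) (hN : ∀ l, Inn phi l) {Phi : CT}
    (hPhi : ∀ x, Phi x = phi (e x)) : CompletelyIrreducible (T Phi) := by
  obtain ⟨d, hd, hd1, hsub⟩ := exists_ann_subset (isOpen_analyticAt ℂ phi) hana
  have hphi : DifferentiableOn ℂ phi (ann d) := fun w hw =>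
    (hsub ⟨hw.1.le, hw.2.le⟩).differentiableAt.differentiableWithinAt
  have hsy : Phi = sy phi 1 := by
    ext x
    rw [sy_apply hd (by linarith) one_pos le_rfl hphi, Complex.ofReal_one, one_mul, hPhi]
  rw [bir_iff]
  intro P hP2 hP
  rw [hsy] at hP
  exact triv hd hd1 hphi hPhi hsy (nc_of_inj hana hE hinj) (fin_simple hana hE hinj) hN hP hP2

theorem pstar_ana {phi : ℂ → ℂ} (hana : AnalyticOnNhd ℂ phi (sphere 0 1)) :
    AnalyticOnNhd ℂ (pstar phi) (sphere 0 1) := by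
  intro w hw
  have hw1 : ‖w‖ = 1 := by simpa using hw
  have hw0 : w ≠ 0 := by
    rintro rfl
    simp at hw1
  have hinv : (conj w)⁻¹ = w := by
    have h2 : w * conj w = 1 := by
      rw [Complex.mul_conj, Complex.normSq_eq_norm_sq, hw1]
      norm_num
    exact (eq_inv_of_mul_eq_one_left h2).symm
  have h := hana w hw
  rw [Complex.analyticAt_iff_eventually_differentiableAt] at h ⊢
  have hc : ContinuousAt (fun v : ℂ => (conj v)⁻¹) w :=
    (Complex.continuous_conj.continuousAt).inv₀ (by simpa using hw0)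
  have hc' : Tendsto (fun v : ℂ => (conj v)⁻¹) (𝓝 w) (𝓝 w) := by
    have := hc.tendsto
    rwa [hinv] at this
  have h0 : ∀ᶠ v in 𝓝 w, v ≠ 0 := isOpen_ne.mem_nhds hw0
  filter_upwards [hc'.eventually h, h0] with v hv hv0
  have h1 : HasDerivAt (conj ∘ phi ∘ conj) (conj (deriv phi (conj v)⁻¹)) v⁻¹ := by
    have := hv.hasDerivAt.conj_conj
    rwa [map_inv₀, Complex.conj_conj] at this
  have h2 : HasDerivAt (fun v : ℂ => v⁻¹) (-(v ^ 2)⁻¹) v := hasDerivAt_inv hv0
  have h3 := h1.comp v h2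
  have h4 : HasDerivAt (pstar phi) (conj (deriv phi (conj v)⁻¹) * -(v ^ 2)⁻¹) v := by
    refine h3.congr_of_eventuallyEq (Eventually.of_forall fun u => ?_)
    simp [pstar, map_inv₀]
  exact h4.differentiableAt

theorem pstar_sphere (phi : ℂ → ℂ) {w : ℂ} (hw : ‖w‖ = 1) : pstar phi w = conj (phi w) := by
  have h2 : w * conj w = 1 := by
    rw [Complex.mul_conj, Complex.normSq_eq_norm_sq, hw]
    norm_num
  have hinv : (conj w)⁻¹ = w := (eq_inv_of_mul_eq_one_left h2).symm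
  rw [pstar, hinv]

theorem inn_pstar {phi : ℂ → ℂ} (hana : AnalyticOnNhd ℂ phi (sphere 0 1)) (hNC : NC phi) {l : ℂ}
    (hO : Out phi l) : Inn (pstar phi) (conj l) := by
  obtain ⟨d, hd, hd1, hsub⟩ := exists_ann_subset (isOpen_analyticAt ℂ phi) hana
  have h1 : ∀ᶠ r : ℝ in 𝓝[>] 1, r < 1 + d := nhdsWithin_le_nhds (Iio_mem_nhds (by linarith))
  have h2 : ∀ᶠ r : ℝ in 𝓝[>] 1, ∀ z ∈ sphere (0 : ℂ) 1, phi (r * z) ≠ l :=
    (evt_ne hNC l).filter_mono (nhdsWithin_mono _ fun x (hx : 1 < x) => hx.ne')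
  have h3 : ∀ᶠ r : ℝ in 𝓝[>] 1, 1 < r := self_mem_nhdsWithin
  have h4 : Tendsto (fun r : ℝ => r⁻¹) (𝓝[<] 1) (𝓝[>] 1) := by
    refine tendsto_nhdsWithin_iff.2 ⟨?_, ?_⟩
    · have : Tendsto (fun r : ℝ => r⁻¹) (𝓝 1) (𝓝 1) := by
        have := (continuousAt_inv₀ (one_ne_zero (α := ℝ))).tendsto
        simpa using this
      exact this.mono_left nhdsWithin_le_nhds
    · have h5 : ∀ᶠ r : ℝ in 𝓝[<] 1, r < 1 := self_mem_nhdsWithin
      have h6 : ∀ᶠ r : ℝ in 𝓝[<] 1, 0 < r := nhdsWithin_le_nhds (Ioi_mem_nhds one_pos)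
      filter_upwards [h5, h6] with r h7 h8
      exact one_lt_inv_iff₀.2 ⟨h8, h7⟩
  have h5 := h4.eventually (h1.and (h2.and (h3.and hO)))
  filter_upwards [h5] with r hr
  obtain ⟨r1, r2, r3, r4⟩ := hr
  have hr0 : (0 : ℝ) < r⁻¹ := by linarith
  obtain ⟨g, hg⟩ : ∃ g : ℂ → ℂ, g = fun v => phi ((r⁻¹ : ℝ) * v) := ⟨_, rfl⟩
  have hga : AnalyticOnNhd ℂ g (sphere 0 1) := by
    intro z hz
    have hz' : ‖z‖ = 1 := by simpa using hz
    rw [hg]
    refine AnalyticAt.fun_comp (hsub ?_) (analyticAt_const.mul analyticAt_id)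
    have : ‖((r⁻¹ : ℝ) : ℂ) * z‖ = r⁻¹ := by
      rw [norm_mul, hz', mul_one, Complex.norm_real, Real.norm_eq_abs, abs_of_pos hr0]
    change 1 - d ≤ ‖((r⁻¹ : ℝ) : ℂ) * z‖ ∧ ‖((r⁻¹ : ℝ) : ℂ) * z‖ ≤ 1 + d
    rw [this]
    exact ⟨by linarith, r1.le⟩
  have hlJ : l ∉ J g := by
    rintro ⟨z, hz, hzl⟩
    rw [hg] at hzl
    exact r2 z hz hzl
  have h6 := wd_pstar hga hlJ
  have h7 : (fun w => pstar phi (r * w) - conj l) = fun w => pstar g w - conj l := by
    funext w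
    rw [hg]
    simp only [pstar]
    congr 3
    rw [map_mul, Complex.conj_ofReal, mul_inv]
    push_cast
    ring
  have h8 : (wd g l).re ≤ 0 := by
    have : (fun w => g w - l) = fun w => phi ((r⁻¹ : ℝ) * w) - l := by rw [hg]
    rw [wd, this]
    exact r4
  rw [h7]
  change 0 ≤ (wd (pstar g) (conj l)).re
  rw [h6]
  linarith

theorem bir_out {phi : ℂ → ℂ} (hana : AnalyticOnNhd ℂ phi (sphere 0 1)) {E : Set ℂ}
    (hE : E.Finite) (hinj : InjOn phi (sphere 0 1 \ E)) (hN : ∀ l, Out phi l) {Phi : CT}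
    (hPhi : ∀ x, Phi x = phi (e x)) : CompletelyIrreducible (T Phi) := by
  have hNC := nc_of_inj hana hE hinj
  rw [← bir_adj, adjoint_T]
  refine bir_inn (pstar_ana hana) hE ?_ (fun l => ?_) (Phi := star Phi) fun x => ?_
  · intro a ha b hb hab
    rw [pstar_sphere phi (by simpa using ha.1), pstar_sphere phi (by simpa using hb.1)] at hab
    exact hinj ha hb ((starRingEnd ℂ).injective hab)
  · have := inn_pstar hana hNC (hN (conj l))
    rwa [Complex.conj_conj] at this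
  · rw [pstar_e, ← hPhi]
    rfl

theorem main_one {phi : ℂ → ℂ} (hana : AnalyticOnNhd ℂ phi (sphere 0 1)) {E : Set ℂ}
    (hE : E.Finite) (hinj : InjOn phi (sphere 0 1 \ E))
    (hN : (∀ l, Inn phi l) ∨ (∀ l, Out phi l)) :
    (∀ f ∈ H2, ∃! g, IsToeplitz phi f g) ∧ BIR H2 (IsToeplitz phi) := by
  have hc : Continuous fun x : UnitAddCircle => phi (e x) := by
    refine hana.continuousOn.comp_continuous continuous_e fun x => ?_
    rw [mem_sphere_zero_iff_norm]
    exact norm_e x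
  obtain ⟨Phi, hPhi⟩ : ∃ Phi : CT, ∀ x, Phi x = phi (e x) := ⟨⟨_, hc⟩, fun _ => rfl⟩
  refine ⟨fun f hf => ?_, ?_⟩
  · obtain ⟨f', rfl⟩ := exists_incl hf
    exact ⟨_, isToeplitz_incl hPhi f', fun g hg => isToeplitz_unique hg (isToeplitz_incl hPhi f')⟩
  · rw [bir_iff_rel hPhi]
    rcases hN with h | h
    · exact bir_inn hana hE hinj h hPhi
    · exact bir_out hana hE hinj h hPhi

end Pool.Agent.TBirG
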