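import Pool.Agent.TBirG.Kap

/-!
# Difference quotients of the symbol
-/

set_option autoImplicit false

open MeasureTheory Complex Set Filter Topology Metric AddCircle
open scoped ComplexConjugate InnerProductSpace ENNReal

namespace Pool.Agent.TBirG

open Pool.Agent.TBir

theorem dslope_diff {d : ℝ} {phi : ℂ → ℂ} (hphi : DifferentiableOn ℂ phi (ann d)) {z : ℂ}
    (hz : z ∈ ann d) : DifferentiableOn ℂ (dslope phi z) (ann d) :=
  (Complex.differentiableOn_dslope ((isOpen_ann d).mem_nhds hz)).2 hphi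

theorem dslope_symm (phi : ℂ → ℂ) (a b : ℂ) : dslope phi a b = dslope phi b a := by
  by_cases h : a = b
  · rw [h]
  · rw [dslope_of_ne _ (Ne.symm h), dslope_of_ne _ h, slope_comm]

/-- Factorisation of `T - phi z`. -/
theorem fac_r {d r : ℝ} (hd : 0 < d) (hd1 : d < 1) (hr : 1 - d < r) (hr1 : r ≤ 1) {phi : ℂ → ℂ}
    (hphi : DifferentiableOn ℂ phi (ann d)) {z : ℂ} (hz : z ∈ ann d) :
    T (sy phi r) - phi z • (1 : Hardy →L[ℂ] Hardy) =
      T (sy (dslope phi z) r) * ((r : ℂ) • S - z • (1 : Hardy →L[ℂ] Hardy)) := by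
  have hr0 : 0 < r := by linarith
  have h1 : sy phi r - algebraMap ℂ CT (phi z) = sy (dslope phi z) r *
      ((r : ℂ) • fourier 1 - algebraMap ℂ CT z) := by
    ext x
    simp only [Algebra.algebraMap_eq_smul_one, ContinuousMap.sub_apply, ContinuousMap.mul_apply,
      ContinuousMap.smul_apply, ContinuousMap.one_apply, smul_eq_mul, mul_one]
    rw [sy_apply hd hr hr0 hr1 hphi, sy_apply hd hr hr0 hr1 (dslope_diff hphi hz),
      fourier_one_apply]
    have := sub_smul_dslope phi z ((r : ℂ) * e x)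
    rw [smul_eq_mul] at this
    rw [← this]
    ring
  have p0 : Plus ((r : ℂ) • (fourier 1 : CT)) := by
    have := (plus_algebraMap (r : ℂ)).mul (plus_fourier (n := 1) (by norm_num))
    rwa [Algebra.algebraMap_eq_smul_one, smul_mul_assoc, one_mul] at this
  have p1 : Plus ((r : ℂ) • (fourier 1 : CT) - algebraMap ℂ CT z) := p0.sub (plus_algebraMap _)
  rw [← T_algebraMap, ← T_sub, h1, T_mul_right _ p1, T_sub, T_smul, T_algebraMap]
  rfl

/-- The difference quotient as a symbol. -/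
noncomputable def qs (phi : ℂ → ℂ) (z : ℂ) : CT := sy (dslope phi z) 1

theorem fac_one {d : ℝ} (hd : 0 < d) (hd1 : d < 1) {phi : ℂ → ℂ}
    (hphi : DifferentiableOn ℂ phi (ann d)) {z : ℂ} (hz : z ∈ ann d) :
    T (sy phi 1) - phi z • (1 : Hardy →L[ℂ] Hardy) =
      T (qs phi z) * (S - z • (1 : Hardy →L[ℂ] Hardy)) := by
  have h := fac_r hd hd1 (by linarith) le_rfl hphi hz
  rw [Complex.ofReal_one, one_smul] at h
  exact h

theorem qs_apply {d : ℝ} (hd : 0 < d) (_hd1 : d < 1) {phi : ℂ → ℂ}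
    (hphi : DifferentiableOn ℂ phi (ann d)) {z : ℂ} (hz : z ∈ ann d) (x : UnitAddCircle) :
    qs phi z x = dslope phi (e x) z := by
  rw [qs, sy_apply hd (by linarith) one_pos le_rfl (dslope_diff hphi hz), Complex.ofReal_one,
    one_mul, dslope_symm]

theorem bound_dslope {d : ℝ} (hd : 0 < d) (hd1 : d < 1) {phi : ℂ → ℂ}
    (hphi : DifferentiableOn ℂ phi (ann d)) :
    ∃ M : ℝ, ∀ x : UnitAddCircle, ∀ z ∈ ann (d / 2), ‖dslope phi (e x) z‖ ≤ M := by
  obtain ⟨B, hB⟩ := exists_bdd (d := d) (d' := 3 * d / 4) (by linarith) hphi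
  have hB0 : 0 ≤ B := (norm_nonneg _).trans (hB _ (e_mem_ann (by linarith) 0))
  refine ⟨2 * B / (d / 2), fun x => ?_⟩
  refine norm_le_ann (d := d) (half_pos hd) (half_lt_self hd) hd1
    (dslope_diff hphi (e_mem_ann hd x)) ?_
  intro w hw
  have hwa : w ∈ ann (3 * d / 4) := by
    rcases hw with h | h
    · exact ⟨by rw [h]; linarith, by rw [h]; linarith⟩
    · exact ⟨by rw [h]; linarith, by rw [h]; linarith⟩
  have hdist : d / 2 ≤ ‖w - e x‖ := by
    rcases hw with h | h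
    · have := norm_sub_norm_le (e x) w
      rw [norm_e, h, norm_sub_rev] at this
      linarith
    · have := norm_sub_norm_le w (e x)
      rw [norm_e, h] at this
      linarith
  have hne : w ≠ e x := by
    rintro rfl
    rw [sub_self, norm_zero] at hdist
    linarith
  rw [dslope_of_ne _ hne, slope_def_field, norm_div]
  have h1 : ‖phi w - phi (e x)‖ ≤ 2 * B := by
    refine (norm_sub_le _ _).trans ?_
    have h2 := hB w hwa
    have h3 := hB _ (e_mem_ann (by linarith : (0 : ℝ) < 3 * d / 4) x)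
    linarith
  exact div_le_div₀ (by linarith) h1 (half_pos hd) hdist

theorem qs_diff {d : ℝ} (hd : 0 < d) (hd1 : d < 1) {phi : ℂ → ℂ}
    (hphi : DifferentiableOn ℂ phi (ann d)) {z0 : ℂ} {s : ℝ} (hs : ball z0 s ⊆ ann (d / 2)) :
    DifferentiableOn ℂ (qs phi) (ball z0 s) := by
  obtain ⟨M, hM⟩ := bound_dslope hd hd1 hphi
  have hsub : ann (d / 2) ⊆ ann d := by
    rintro w ⟨h1, h2⟩
    exact ⟨by linarith, by linarith⟩
  refine sepAn (M := M) (fun z hz x => ?_) fun x => ?_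
  · rw [qs_apply hd hd1 hphi (hsub (hs hz))]
    exact hM x z (hs hz)
  · refine ((dslope_diff hphi (e_mem_ann hd x)).mono (hs.trans hsub)).congr fun z hz => ?_
    rw [qs_apply hd hd1 hphi (hsub (hs hz))]

theorem T_qs_diff {d : ℝ} (hd : 0 < d) (hd1 : d < 1) {phi : ℂ → ℂ}
    (hphi : DifferentiableOn ℂ phi (ann d)) {z0 : ℂ} {s : ℝ} (hs : ball z0 s ⊆ ann (d / 2)) :
    DifferentiableOn ℂ (fun z => T (qs phi z)) (ball z0 s) := by
  obtain ⟨TL, hTL⟩ := exists_TL
  have h : (fun z => T (qs phi z)) = fun z => TL (qs phi z) := funext fun z => (hTL _).symm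
  rw [h]
  exact TL.differentiable.comp_differentiableOn (qs_diff hd hd1 hphi hs)

/-! ### winding numbers -/

theorem mem_sphere_ann {d : ℝ} (hd : 0 < d) {z : ℂ} (hz : z ∈ sphere (0 : ℂ) 1) : z ∈ ann d := by
  rw [mem_sphere_zero_iff_norm] at hz
  exact ⟨by rw [hz]; linarith, by rw [hz]; linarith⟩

theorem analyticOnNhd_sphere {d : ℝ} (hd : 0 < d) {g : ℂ → ℂ}
    (hg : DifferentiableOn ℂ g (ann d)) : AnalyticOnNhd ℂ g (sphere 0 1) :=
  fun z hz => hg.analyticOnNhd (isOpen_ann d) z (mem_sphere_ann hd hz)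

/-- Dilation does not change the winding number. -/
theorem wind_dil {g : ℂ → ℂ} (hg : AnalyticOnNhd ℂ g (sphere 0 1))
    (h0 : ∀ z ∈ sphere (0 : ℂ) 1, g z ≠ 0) :
    ∀ᶠ r : ℝ in 𝓝 1, AnalyticOnNhd ℂ (fun w => g (r * w)) (sphere 0 1) ∧
      (∀ z ∈ sphere (0 : ℂ) 1, g (r * z) ≠ 0) ∧ wind (fun w => g (r * w)) = wind g := by
  have hmul : ∀ z : ℂ, Tendsto (fun p : ℝ × ℂ => (p.1 : ℂ) * p.2) (𝓝 (1, z)) (𝓝 z) := by
    intro z
    have hc : Continuous fun p : ℝ × ℂ => (p.1 : ℂ) * p.2 := by fun_prop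
    have := hc.tendsto (1, z)
    simpa using this
  have h1 : ∀ᶠ r : ℝ in 𝓝 1, ∀ z ∈ sphere (0 : ℂ) 1,
      AnalyticAt ℂ g (r * z) ∧ ‖g (r * z) - g z‖ < ‖g z‖ := by
    refine (isCompact_sphere (0 : ℂ) 1).eventually_forall_of_forall_eventually fun z hz => ?_
    have ha : ∀ᶠ w in 𝓝 z, AnalyticAt ℂ g w := (hg z hz).eventually_analyticAt
    have h2 := (hmul z).eventually ha
    have hc1 : Tendsto (fun p : ℝ × ℂ => g ((p.1 : ℂ) * p.2)) (𝓝 (1, z)) (𝓝 (g z)) :=
      (hg z hz).continuousAt.tendsto.comp (hmul z)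
    have hc2 : Tendsto (fun p : ℝ × ℂ => g p.2) (𝓝 (1, z)) (𝓝 (g z)) := by
      have h3 : Tendsto (fun p : ℝ × ℂ => p.2) (𝓝 (1, z)) (𝓝 z) := continuous_snd.tendsto (1, z)
      exact (hg z hz).continuousAt.tendsto.comp h3
    have hc3 := (hc1.sub hc2).norm
    rw [sub_self, norm_zero] at hc3
    have h4 := hc3.eventually_lt hc2.norm (norm_pos_iff.2 (h0 z hz))
    filter_upwards [h2, h4] with p hp1 hp2
    exact ⟨hp1, hp2⟩
  filter_upwards [h1] with r hr
  have ha : AnalyticOnNhd ℂ (fun w => g (r * w)) (sphere 0 1) := by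
    intro z hz
    exact AnalyticAt.fun_comp (hr z hz).1 (analyticAt_const.mul analyticAt_id)
  refine ⟨ha, fun z hz h => ?_, wind_near ha hg fun z hz => (hr z hz).2⟩
  have := (hr z hz).2
  rw [h, zero_sub, norm_neg] at this
  exact lt_irrefl _ this

theorem wind_lin {r : ℝ} (hr0 : 0 < r) {a : ℂ} (ha : ‖a‖ ≠ r) :
    wind (fun w => (r : ℂ) * w - a) = if ‖a‖ < r then 1 else 0 := by
  have hrc : (r : ℂ) ≠ 0 := by exact_mod_cast hr0.ne'
  have h1 : ‖a / r‖ = ‖a‖ / r := by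
    rw [norm_div, Complex.norm_real, Real.norm_eq_abs, abs_of_pos hr0]
  have h2 : ‖a / r‖ ≠ 1 := by
    rw [h1]
    intro h
    rw [div_eq_iff hr0.ne', one_mul] at h
    exact ha h
  have h3 : (fun w : ℂ => (r : ℂ) * w - a) = fun w => (r : ℂ) * (w - a / r) := by
    funext w
    field_simp
  have h4 : wind (fun w => (r : ℂ) * (w - a / r)) = wind (fun w => w - a / r) := by
    have h5 : wind (fun _ : ℂ => (r : ℂ)) = 0 := by
      unfold wind
      simp [circleIntegral]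
    rw [wind_mul (f := fun _ => (r : ℂ)) (g := fun w => w - a / r)
      (fun z _ => analyticAt_const) (fun z _ => analyticAt_id.sub analyticAt_const)
      (fun z _ => hrc) (fun z hz h => ?_), h5, zero_add]
    rw [mem_sphere_zero_iff_norm] at hz
    apply h2
    rw [← sub_eq_zero.1 h]
    exact hz
  rw [h3, h4, wind_sub_const h2, h1]
  have h6 : ‖a‖ / r < 1 ↔ ‖a‖ < r := div_lt_one hr0
  simp only [h6]

end Pool.Agent.TBirG
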