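import Pool.Agent.TBirG.Cst

/-!
# If the scalar is zero, then the vectors fixed by `P` are in all ranges
-/

set_option autoImplicit false

open MeasureTheory Complex Set Filter Topology Metric AddCircle
open scoped ComplexConjugate InnerProductSpace ENNReal

namespace Pool.Agent.TBirG

open Pool.Agent.TBir

theorem dense_J {phi : ℂ → ℂ} (hphi : AnalyticOnNhd ℂ phi (sphere 0 1)) : Dense (J phi)ᶜ := by
  have hc : ContDiff ℝ 1 (fun t : ℝ => phi (Complex.exp (t * I))) := by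
    rw [contDiff_iff_contDiffAt]
    intro t
    have h1 : Complex.exp (t * I) ∈ sphere (0 : ℂ) 1 := by
      simp [Complex.norm_exp_ofReal_mul_I]
    have h2 : ContDiffAt ℝ 1 phi (Complex.exp (t * I)) :=
      ((hphi _ h1).contDiffAt (n := 1)).restrict_scalars ℝ
    have h3 : ContDiff ℝ 1 fun t : ℝ => Complex.exp (t * I) :=
      (Complex.ofRealCLM.contDiff.mul contDiff_const).cexp
    exact h2.comp t h3.contDiffAt
  have h := hc.dense_compl_range_of_finrank_lt_finrank (by simp [Complex.finrank_real_complex])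
  have hJ : J phi = range fun t : ℝ => phi (Complex.exp (t * I)) := by
    ext l
    constructor
    · rintro ⟨z, hz, rfl⟩
      have hz' : ‖z‖ = 1 := by simpa using hz
      refine ⟨arg z, ?_⟩
      have := Complex.norm_mul_exp_arg_mul_I z
      rw [hz', Complex.ofReal_one, one_mul] at this
      simp only [this]
    · rintro ⟨t, rfl⟩
      exact ⟨_, by simp [Complex.norm_exp_ofReal_mul_I], rfl⟩
  rw [hJ]
  exact h

/-- `f` is in the range of `T - l`. -/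
def InR (phi : ℂ → ℂ) (f : Hardy) (l : ℂ) : Prop :=
  ∃ h : Hardy, (T (sy phi 1) - l • (1 : Hardy →L[ℂ] Hardy)) h = f

theorem InR_of_large (phi : ℂ → ℂ) (f : Hardy) {l : ℂ} (hl : ‖T (sy phi 1)‖ < ‖l‖) :
    InR phi f l := by
  have h1 : l ∉ spectrum ℂ (T (sy phi 1)) := by
    intro h
    have h2 := spectrum.norm_le_norm_mul_of_mem h
    have h3 : ‖(1 : Hardy →L[ℂ] Hardy)‖ ≤ 1 := ContinuousLinearMap.norm_id_le
    nlinarith [norm_nonneg (T (sy phi 1))]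
  rw [spectrum.notMem_iff, Algebra.algebraMap_eq_smul_one] at h1
  obtain ⟨u, hu⟩ := h1
  refine ⟨-((u⁻¹ : (Hardy →L[ℂ] Hardy)ˣ) : Hardy →L[ℂ] Hardy) f, ?_⟩
  have h2 : T (sy phi 1) - l • (1 : Hardy →L[ℂ] Hardy) = -(u : Hardy →L[ℂ] Hardy) := by
    rw [hu, neg_sub]
  have h3 := congrArg (fun B : Hardy →L[ℂ] Hardy => B f) (Units.mul_inv u)
  rw [h2]
  change -((u : Hardy →L[ℂ] Hardy) (-(((u⁻¹ : (Hardy →L[ℂ] Hardy)ˣ) : Hardy →L[ℂ] Hardy) f))) = f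
  rw [map_neg, neg_neg]
  exact h3

theorem wd_of_NN {phi : ℂ → ℂ} (hphi : AnalyticOnNhd ℂ phi (sphere 0 1)) {l : ℂ}
    (hl : l ∉ J phi) (hN : Inn phi l) : 0 ≤ (wd phi l).re := by
  have h1 : AnalyticOnNhd ℂ (fun w => phi w - l) (sphere 0 1) :=
    fun z hz => (hphi z hz).sub analyticAt_const
  have h2 := (wind_dil h1 fun z hz h => hl ⟨z, hz, sub_eq_zero.1 h⟩).filter_mono
    (nhdsWithin_le_nhds (s := Iio (1 : ℝ)))
  obtain ⟨r, h3, h4⟩ := (h2.and hN).exists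
  rw [wd, ← h3.2.2]
  exact h4

/-- Off the curve. -/
theorem loc_off {phi : ℂ → ℂ} (hphi : AnalyticOnNhd ℂ phi (sphere 0 1)) {Phi : CT}
    (hPhi : ∀ x, Phi x = phi (e x)) (hsy : Phi = sy phi 1) {l : ℂ}
    (hl : l ∉ J phi) (hN : Inn phi l) (f : Hardy) :
    ∃ ρ > 0, ∀ W : Set ℂ, IsOpen W → (W ∩ ball l ρ).Nonempty → (∀ μ ∈ W, InR phi f μ) →
      ∀ μ ∈ ball l ρ, InR phi f μ := by
  obtain ⟨L0, hL0⟩ := exists_left_of_wd hphi hPhi hl (wd_of_NN hphi hl hN)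
  rw [hsy] at hL0
  obtain ⟨s, L, hs, _, h1, h2, _⟩ := abs_left (A := fun l : ℂ => T (sy phi 1) -
    l • (1 : Hardy →L[ℂ] Hardy)) one_pos (by fun_prop) hL0 (P := 1) (fun eps heps =>
      ⟨l, mem_ball_self heps, Eventually.of_forall fun l => ⟨1, by rw [one_mul, mul_one]⟩⟩)
  refine ⟨s, hs, ?_⟩
  rintro W hW ⟨μ0, hμ0, hμ0'⟩ hWR μ hμ
  have hd1 : DifferentiableOn ℂ (fun μ : ℂ => T (sy phi 1) - μ • (1 : Hardy →L[ℂ] Hardy))
      (ball l s) := by fun_prop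
  have hd : DifferentiableOn ℂ (fun μ : ℂ => (T (sy phi 1) - μ • (1 : Hardy →L[ℂ] Hardy))
      (L μ f) - f) (ball l s) :=
    (hd1.clm_apply (h1.clm_apply (differentiableOn_const f))).sub_const f
  have hz : (fun μ : ℂ => (T (sy phi 1) - μ • (1 : Hardy →L[ℂ] Hardy)) (L μ f) - f) =ᶠ[𝓝 μ0] 0 := by
    filter_upwards [hW.mem_nhds hμ0, isOpen_ball.mem_nhds hμ0'] with ν h3 h4
    obtain ⟨k, hk⟩ := hWR ν h3
    have h5 : L ν f = k := by
      rw [← hk]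
      exact congrArg (fun B : Hardy →L[ℂ] Hardy => B k) (h2 ν h4)
    change (T (sy phi 1) - ν • (1 : Hardy →L[ℂ] Hardy)) (L ν f) - f = 0
    rw [h5, hk, sub_self]
  have h6 := (hd.analyticOnNhd isOpen_ball).eqOn_zero_of_preconnected_of_eventuallyEq_zero
    (convex_ball l s).isPreconnected hμ0' hz hμ
  exact ⟨L μ f, sub_eq_zero.1 h6⟩

/-- At a simple point of the curve. -/
theorem loc_on {d : ℝ} (hd : 0 < d) (hd1 : d < 1) {phi : ℂ → ℂ}
    (hphi : DifferentiableOn ℂ phi (ann d)) {P : Hardy →L[ℂ] Hardy} {z0 : ℂ}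
    (h : Simple phi z0) (hSF : SF d phi P z0 0) {f : Hardy} (hf : P f = f) :
    ∃ ρ > 0, ∀ W : Set ℂ, IsOpen W → (W ∩ ball (phi z0) ρ).Nonempty →
      (∀ μ ∈ W, μ ∉ J phi → InR phi f μ) → ∀ μ ∈ ball (phi z0) ρ, μ ∉ J phi → InR phi f μ := by
  obtain ⟨s, L, hs, hsub, hL, g1, g2, g3⟩ := hSF
  have hsub' : ball z0 s ⊆ ann d := hsub.trans (ann_half hd)
  have hpa : AnalyticOnNhd ℂ phi (sphere 0 1) := analyticOnNhd_sphere hd hphi
  have hJc : IsClosed (J phi) := (isCompact_J hpa).isClosed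
  have hpo : ∀ s' ⊆ ball z0 s, IsOpen s' → IsOpen (phi '' s') := by
    have hana : AnalyticOnNhd ℂ phi (ball z0 s) :=
      (hphi.mono hsub').analyticOnNhd isOpen_ball
    rcases hana.is_constant_or_isOpen (convex_ball z0 s).isPreconnected with ⟨w, hw⟩ | h1
    · exfalso
      apply h.2.1
      have : phi =ᶠ[𝓝 z0] fun _ => w := by
        filter_upwards [ball_mem_nhds z0 hs] with z hz
        exact hw z hz
      rw [this.deriv_eq]
      simp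
    · exact h1
  have himg := hpo (ball z0 s) subset_rfl isOpen_ball
  obtain ⟨ρ, hρ, hρ'⟩ := Metric.isOpen_iff.1 himg (phi z0) ⟨z0, mem_ball_self hs, rfl⟩
  refine ⟨ρ, hρ, ?_⟩
  rintro W hW ⟨μ0, hμ0, hμ0'⟩ hWR μ hμ hμJ
  obtain ⟨z2, hz2, rfl⟩ := hρ' hμ0'
  -- an open set of `z` with `phi z` in `W` and off `J`
  have hpc : ContinuousOn phi (ball z0 s) := hphi.continuousOn.mono hsub'
  have hA1 : IsOpen (ball z0 s ∩ phi ⁻¹' W) := hpc.isOpen_inter_preimage isOpen_ball hW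
  obtain ⟨_, ⟨z3, hz3, rfl⟩, hν⟩ := (dense_J hpa).inter_open_nonempty _
    (hpo _ inter_subset_left hA1) ⟨phi z2, z2, ⟨hz2, hμ0⟩, rfl⟩
  have hA2 : IsOpen (ball z0 s ∩ phi ⁻¹' (W ∩ (J phi)ᶜ)) :=
    hpc.isOpen_inter_preimage isOpen_ball (hW.inter hJc.isOpen_compl)
  have hz3' : z3 ∈ ball z0 s ∩ phi ⁻¹' (W ∩ (J phi)ᶜ) := ⟨hz3.1, hz3.2, hν⟩
  have hfac : ∀ z ∈ ball z0 s, ∀ x, T (qs phi z) ((S - z • (1 : Hardy →L[ℂ] Hardy)) x) =
      (T (sy phi 1) - phi z • (1 : Hardy →L[ℂ] Hardy)) x := fun z hz x => by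
    have := congrArg (fun B : Hardy →L[ℂ] Hardy => B x)
      (fac_one hd hd1 hphi (hsub' hz))
    exact this.symm
  have hdE : DifferentiableOn ℂ (fun z => T (qs phi z) (L z f) - f) (ball z0 s) :=
    ((T_qs_diff hd hd1 hphi hsub).clm_apply (hL.clm_apply (differentiableOn_const f))).sub_const f
  have hz : (fun z => T (qs phi z) (L z f) - f) =ᶠ[𝓝 z3] 0 := by
    filter_upwards [hA2.mem_nhds hz3'] with z hz
    obtain ⟨k, hk⟩ := hWR (phi z) hz.2.1 hz.2.2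
    have h5 : L z f = (S - z • (1 : Hardy →L[ℂ] Hardy)) k := by
      rw [← hk, ← hfac z hz.1]
      exact congrArg (fun B : Hardy →L[ℂ] Hardy => B _) (g1 z hz.1)
    change T (qs phi z) (L z f) - f = 0
    rw [h5, hfac z hz.1, hk, sub_self]
  have hE : ∀ z ∈ ball z0 s, T (qs phi z) (L z f) = f := fun z hz' => sub_eq_zero.1
    ((hdE.analyticOnNhd isOpen_ball).eqOn_zero_of_preconnected_of_eventuallyEq_zero
      (convex_ball z0 s).isPreconnected hz3.1 hz hz')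
  obtain ⟨z, hzb, rfl⟩ := hρ' hμ
  rcases lt_trichotomy ‖z‖ 1 with h1 | h1 | h1
  · have h2 : L z (P (T (qs phi z) (L z f))) = L z f := by
      rw [hE z hzb, hf]
    have h3 := g3 z hzb h1 (L z f)
    rw [h2, zero_mul] at h3
    obtain ⟨k, hk⟩ := div_of_ev h1 h3
    refine ⟨k, ?_⟩
    rw [← hfac z hzb, hk, hE z hzb]
  · exact absurd ⟨z, by simpa using h1, rfl⟩ hμJ
  · obtain ⟨u, hu⟩ := isUnit_S_sub h1
    refine ⟨((u⁻¹ : (Hardy →L[ℂ] Hardy)ˣ) : Hardy →L[ℂ] Hardy) (L z f), ?_⟩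
    rw [← hfac z hzb, ← hu]
    have h3 := congrArg (fun B : Hardy →L[ℂ] Hardy => B (L z f)) (Units.mul_inv u)
    change (u : Hardy →L[ℂ] Hardy) (((u⁻¹ : (Hardy →L[ℂ] Hardy)ˣ) : Hardy →L[ℂ] Hardy) (L z f)) =
      L z f at h3
    rw [h3, hE z hzb]

/-- All ranges. -/
theorem mem_all {d : ℝ} (hd : 0 < d) (hd1 : d < 1) {phi : ℂ → ℂ}
    (hphi : DifferentiableOn ℂ phi (ann d)) {Phi : CT}
    (hPhi : ∀ x, Phi x = phi (e x)) (hsy : Phi = sy phi 1)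
    (hfin : {z : ℂ | ‖z‖ = 1 ∧ ¬ Simple phi z}.Finite) (hN : ∀ l, l ∉ J phi → Inn phi l)
    {P : Hardy →L[ℂ] Hardy} (hSF : ∀ z, Simple phi z → SF d phi P z 0) {f : Hardy} (hf : P f = f) :
    ∀ l ∉ J phi, InR phi f l := by
  have hpa : AnalyticOnNhd ℂ phi (sphere 0 1) := analyticOnNhd_sphere hd hphi
  obtain ⟨Sp, hSp⟩ : ∃ Sp : Set ℂ, Sp = phi '' {z : ℂ | ‖z‖ = 1 ∧ ¬ Simple phi z} := ⟨_, rfl⟩
  have hSpf : Sp.Finite := by rw [hSp]; exact hfin.image _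
  obtain ⟨G, hG⟩ : ∃ G : Set ℂ, G = {l | ∃ ρ > 0, ∀ μ ∈ ball l ρ, μ ∉ J phi → InR phi f μ} :=
    ⟨_, rfl⟩
  obtain ⟨B, hB⟩ : ∃ B : Set ℂ, B = {l | ∃ ρ > 0, ∀ μ ∈ ball l ρ, μ ∉ G} := ⟨_, rfl⟩
  have hop : ∀ p : ℂ → Prop, IsOpen {l : ℂ | ∃ ρ > 0, ∀ μ ∈ ball l ρ, p μ} := by
    intro p
    rw [Metric.isOpen_iff]
    rintro z ⟨ρ, hρ, h⟩
    refine ⟨ρ / 2, half_pos hρ, fun w hw => ⟨ρ / 2, half_pos hρ, fun z1 hz1 => h z1 ?_⟩⟩
    rw [mem_ball] at hw hz1 ⊢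
    linarith [dist_triangle z1 w z]
  have hGo : IsOpen G := by rw [hG]; exact hop _
  have hBo : IsOpen B := by rw [hB]; exact hop _
  have hcov : Spᶜ ⊆ G ∪ B := by
    intro l hl
    by_contra hcon
    rw [mem_union, not_or] at hcon
    obtain ⟨hlG, hlB⟩ := hcon
    -- every ball around `l` meets `G`
    have hmeet : ∀ ρ > 0, ∃ μ ∈ ball l ρ, μ ∈ G := by
      intro ρ hρ
      by_contra h
      push Not at h
      apply hlB
      rw [hB]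
      exact ⟨ρ, hρ, h⟩
    apply hlG
    rw [hG]
    by_cases hlJ : l ∈ J phi
    · obtain ⟨z0, hz0, rfl⟩ := hlJ
      have hz0' : ‖z0‖ = 1 := by simpa using hz0
      have hsim : Simple phi z0 := by
        by_contra h
        apply hl
        rw [hSp]
        exact ⟨z0, ⟨hz0', h⟩, rfl⟩
      obtain ⟨ρ, hρ, h1⟩ := loc_on hd hd1 hphi hsim (hSF z0 hsim) hf
      refine ⟨ρ, hρ, ?_⟩
      obtain ⟨μ, hμ, hμG⟩ := hmeet ρ hρ
      rw [hG] at hμG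
      obtain ⟨ρ2, hρ2, h2⟩ := hμG
      exact h1 (ball μ ρ2) isOpen_ball ⟨μ, mem_ball_self hρ2, hμ⟩ h2
    · obtain ⟨ρ, hρ, h1⟩ := loc_off hpa hPhi hsy hlJ (hN l hlJ) f
      refine ⟨ρ, hρ, fun μ' hμ' _ => ?_⟩
      obtain ⟨μ, hμ, hμG⟩ := hmeet ρ hρ
      rw [hG] at hμG
      obtain ⟨ρ2, hρ2, h2⟩ := hμG
      have hJc : IsClosed (J phi) := (isCompact_J hpa).isClosed
      obtain ⟨ν, hν1, hν2⟩ := (dense_J hpa).inter_open_nonempty (ball μ ρ2 ∩ ball l ρ)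
        (isOpen_ball.inter isOpen_ball) ⟨μ, mem_ball_self hρ2, hμ⟩
      exact h1 (ball μ ρ2 ∩ (J phi)ᶜ) (isOpen_ball.inter hJc.isOpen_compl)
        ⟨ν, ⟨hν1.1, hν2⟩, hν1.2⟩ (fun w hw => h2 w hw.1 hw.2) μ' hμ'
  have hconn : IsPreconnected Spᶜ := by
    refine (hSpf.countable.isPathConnected_compl_of_one_lt_rank ?_).isConnected.isPreconnected
    rw [Complex.rank_real_complex]
    norm_num
  have hGne : (Spᶜ ∩ G).Nonempty := by
    have h1 : IsOpen {l : ℂ | ‖T (sy phi 1)‖ < ‖l‖} := isOpen_lt continuous_const continuous_norm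
    have h2 : {l : ℂ | ‖T (sy phi 1)‖ < ‖l‖}.Nonempty := by
      refine ⟨((‖T (sy phi 1)‖ + 1 : ℝ) : ℂ), ?_⟩
      change ‖T (sy phi 1)‖ < ‖((‖T (sy phi 1)‖ + 1 : ℝ) : ℂ)‖
      rw [Complex.norm_real, Real.norm_eq_abs, abs_of_nonneg (by positivity)]
      linarith
    obtain ⟨l, hl, hl'⟩ := (hSpf.countable.dense_compl ℝ).inter_open_nonempty _ h1 h2
    refine ⟨l, hl', ?_⟩
    obtain ⟨ρ, hρ, h3⟩ := Metric.isOpen_iff.1 h1 l hl
    rw [hG]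
    exact ⟨ρ, hρ, fun μ hμ _ => InR_of_large phi f (h3 hμ)⟩
  have hBe : ¬ (Spᶜ ∩ B).Nonempty := by
    intro hBne
    obtain ⟨l, _, hlG, hlB⟩ := hconn G B hGo hBo hcov hGne hBne
    rw [hB] at hlB
    obtain ⟨ρ, hρ, h⟩ := hlB
    exact h l (mem_ball_self hρ) hlG
  intro l hl
  have hlS : l ∈ Spᶜ := by
    intro h
    rw [hSp] at h
    obtain ⟨z, hz, rfl⟩ := h
    exact hl ⟨z, by simpa using hz.1, rfl⟩
  have hlG : l ∈ G := (hcov hlS).resolve_right fun h => hBe ⟨l, hlS, h⟩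
  rw [hG] at hlG
  obtain ⟨ρ, hρ, h⟩ := hlG
  exact h l (mem_ball_self hρ) hl

end Pool.Agent.TBirG
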